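import Pool.Agent.H462.GX.Inv
import Pool.Agent.H462.T1.D

/-!
# The rank conjecture over the fields `ℚ(√-3, ∛a₁, …, ∛aₙ)`

`K = ℚ(√-3)` is the field of third roots of unity and `E_B` is the curve `y² + B y = x³`.  The radicands
`a₁, …, aₙ` are arbitrary elements of `𝓞 K` prime to `3`, `a^c` is the product `∏ a_l ^ c_l` with
`c_l ∈ {0, 1, 2}`, and `F = K(∛a₁, …, ∛aₙ)` is a number field of degree `2 · 3ⁿ`, so that `F/K` is an
arbitrary Kummer extension of the exponent `3` generated by radicands prime to `3`.  `A` is prime to `3`, and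
the pair `(A, a)` is admissible if each product `A a^c` which is a unit times a cube is a cube.

An element `B` prime to `3` is excluded if `B ≡ ± 1` modulo `3` and `N B ≡ 1` modulo `9`.  The corank of a
cube-free `B` is defined by the cubic residue symbols of its prime divisors modulo each other, as in
`CubicTwistsAllClasses`, and the corank of `B₀ y³` is the corank of `B₀`.  `B` is good if it is a cube, or if
it is no unit times a cube, not excluded and has the corank `0`.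

* (1) `(A, a)` admissible: `L(E_A/F, s)` is entire and is the product of the `3ⁿ` functions
  `L(E_{A a^c}/K, s)`, the group `E_A(F)` is finitely generated and its rank is the sum of the ranks of the
  groups `E_{A a^c}(K)`.  If all the `A a^c` are good, then `E_A(F)` is finite, `L(E_A/F, 1) ≠ 0`, and Q1
  holds for `E_A/F`.
* (2) One more root: let `D` be prime to `3`, and let all the `A a^c D` and `A a^c D²` be no units times cubes
  and not excluded.  They have unique coranks `r_c` and `r'_c`, and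
  `rank E_A(F(∛D)) ≤ rank E_A(F) + 2 ∑ (r_c + r'_c)`, and if all the coranks are zero, then `E_A` is stable:
  the rank and the order of vanishing at `1` are the same over `F` and over `F(∛D)`, and Q1 over `F(∛D)` is
  equivalent to Q1 over `F`.
* (3) Fixed curve `E_A`, fixed field `F`, and all the fields `F(∛D)`, where `D` runs over the squarefree
  elements prime to `3`, to `A` and to the radicands; `A` and the radicands are cube-free and no `A a^c` is a
  unit times a cube.  The class of the `D` in (2) has the share `1 - k 3ⁿ / (9 N)` of all the `D`, where `N`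
  is the number of the excluded `a^c`, and `k = 1` if an `A a^c` is excluded and `k = 2` if not; the `2 · 3ⁿ`
  coranks are independent, with the joint law `∏ p_{r_c} p_{r'_c}`.  So `E_A` is stable for the share
  `p_0 ^ (2 · 3ⁿ)` of the class.
* (4) Fixed field `F`, all the curves `E_D`, and all the fields `F(∛D)`: the class of the `D` for which all
  the `a^c D` are not excluded has the share `1 - 3ⁿ / (9 N)`, and the `3ⁿ` coranks `r_c` of the `a^c D` are
  independent, with the joint law `∏ p_{r_c}`.  `rank E_D(F) ≤ 2 ∑ r_c`, and if all the `r_c` are zero (this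
  is the share `p_0 ^ (3ⁿ)` of the class), then `E_D(F)` is finite, `L(E_D/F, 1) ≠ 0` and Q1 holds for
  `E_D/F`, and, if `(1, a)` is admissible, `E_1` is stable in `F(∛D)/F`.
* (5) The curve `E_1` and the fields `K(∛D)`: for more than `56.8 %` of all the `D` the group `E_1(K(∛D))` is
  finite, Q1 holds, and the `3`-primary part of `Ш` is killed by `3`.
* (8) Infinite towers: if `A` is cube-free, no unit and not excluded, then there is a sequence `a₀, a₁, …` of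
  squarefree radicands such that `E_A` is stable in all the fields `K(∛a₀, …, ∛a_{n-1})` of degree `3ⁿ`.

In (3) and (4) the same law holds in each of the nine classes modulo nine, the class of the `D` such that
`D B²` is excluded, where `B` is prime to `3`; each of them has the share `1/9`.

Here `p_r = ∏_{i ≥ 0} (1 - 3^{-(2 i + 1)}) / ((3 - 1) (9 - 1) ⋯ (3 ^ r - 1))`, `p_0 = 0.6390…`.  If all the
radicands are excluded, the share of the class in (4) is `8/9`, and in (3) it is `8/9` or `7/9`.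

The proof.  `F/K` is a tower of cubic extensions, and the local factors of `L(E_A/F, s)` over all the primes
are computed by an induction over the tower (`GX/Loc`, `Stp`, `Fib`, `Tow`), where a radicand may be replaced
by its cube-free part or by its inverse (`GX/Cbi`, `Unq`, `Inv`), as are the ranks; the `3`-adic valuations of
the values at `1` are given by the coranks (`CTU`, `GX/Per`), and the joint law of the coranks is proved in
`JL`; it is applied to the `2 · 3ⁿ` twists, which are different modulo units and cubes (`GX/Den`, `Fam`).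
-/

set_option autoImplicit false

namespace Pool.Agent.Results.MP_cd906c_nt.CubicKummerExtensions

open NumberField
open Pool.Agent.TH841.NF.D (Sha)
open Pool.Agent.H462.KX
open Pool.Agent.H462.GX (PK)
open scoped Classical

/-- The curve `E_B : y² + B y = x³`. -/
def curve {F : Type} [Field F] (B : F) : WeierstrassCurve F := ⟨0, 0, B, 0, 0⟩

/-- The rank of `W(F)`. -/
noncomputable def rank {F : Type} [Field F] (W : WeierstrassCurve F) : ℕ :=
  Module.finrank ℤ W.toAffine.Point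

section
variable {F : Type} [Field F] [NumberField F]

/-- `L(W/F, s)` converges absolutely for `Re s > 3/2` and has an analytic continuation to the whole
plane. -/
def EntireLSeries (W : WeierstrassCurve F) : Prop :=
  ∃ Φ : ℂ → ℂ, Differentiable ℂ Φ ∧ ∀ s : ℂ, (3 / 2 : ℝ) < s.re →
    LSeriesSummable ((fun n : ℤ => (n : ℂ)) ∘ W.LFunction) s ∧ Φ s = W.LSeries s

/-- `W(F)` is finite and the value of the entire function `L(W/F, s)` at `1` is not zero. -/
def RankZero (W : WeierstrassCurve F) : Prop :=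
  Finite W.toAffine.Point ∧
  ∃ Φ : ℂ → ℂ, Differentiable ℂ Φ ∧ (∀ s : ℂ, (3 / 2 : ℝ) < s.re → Φ s = W.LSeries s) ∧
    Φ 1 ≠ 0

/-- The assertion of Q1 for `W/F`: if `Φ` is a continuation of `L(W/F, s)` to the whole plane, then
the order of vanishing of `Φ` at `1` is the rank of `W(F)`. -/
def RankEquality (W : WeierstrassCurve F) : Prop :=
  ∀ Φ : ℂ → ℂ, Differentiable ℂ Φ → (∀ s : ℂ, (3 / 2 : ℝ) < s.re → Φ s = W.LSeries s) →
    analyticOrderAt Φ 1 = (rank W : ℕ∞)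

/-- The `3`-primary part of the Tate-Shafarevich group of `W/F` is killed by `3`. -/
def ShaThree (W : WeierstrassCurve F) : Prop :=
  ∀ (n : ℕ) (x : Sha W), 3 ^ n • x = 0 → 3 • x = 0

end

section
variable {K : Type} [Field K] [NumberField K]

/-- `B` is prime to `3`. -/
def PrimeToThree (B : 𝓞 K) : Prop := ¬ (3 : ℤ) ∣ Algebra.norm ℤ B

/-- `B` is cube-free and prime to `3`. -/
def CubeFreePrimeToThree (B : 𝓞 K) : Prop :=
  (∀ π : 𝓞 K, Prime π → ¬ π ^ 3 ∣ B) ∧ PrimeToThree B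

/-- `B` is squarefree and prime to `3`. -/
def SquarefreePrimeToThree (B : 𝓞 K) : Prop := Squarefree B ∧ PrimeToThree B

/-- `B` is `± 1` modulo `3` and its norm is `1` modulo `9`. -/
def Excluded (B : 𝓞 K) : Prop := (3 : 𝓞 K) ∣ B ^ 2 - 1 ∧ (9 : ℤ) ∣ Algebra.norm ℤ B - 1

/-- `B` is a unit times a cube. -/
def UnitTimesCube (B : 𝓞 K) : Prop := ∃ u y : 𝓞 K, IsUnit u ∧ B = u * y ^ 3

/-- `B` is the product of `± ω ^ k` and of the powers `π i ^ e i` of different primes `π i`, which are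
`1` modulo `3`, and the cubic residue symbol of `π i` modulo `π j` is `ω ^ χ j i`. -/
def IsFactorization (ω B : 𝓞 K) (k : ZMod 3) (m : ℕ) (π : Fin m → 𝓞 K) (e : Fin m → ZMod 3)
    (χ : Fin m → Fin m → ZMod 3) : Prop :=
  (∀ i, Prime (π i) ∧ (3 : 𝓞 K) ∣ π i - 1 ∧ e i ≠ 0) ∧ Function.Injective π ∧
  (B = ω ^ k.val * ∏ i, π i ^ (e i).val ∨ B = -(ω ^ k.val * ∏ i, π i ^ (e i).val)) ∧
  ∀ i j, i ≠ j →
    π j ∣ π i ^ (((Algebra.norm ℤ (π j)).natAbs - 1) / 3) - ω ^ (χ j i).val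

/-- The number of the solutions of the system `∑_i e_i χ_{ji} (v_i - v_j) = k q_j v_j`, where
`q_j = (N π_j - 1) / 3`, over the field with three elements. -/
noncomputable def solutions (k : ZMod 3) {m : ℕ} (π : Fin m → 𝓞 K) (e : Fin m → ZMod 3)
    (χ : Fin m → Fin m → ZMod 3) : ℕ :=
  Nat.card {v : Fin m → ZMod 3 // ∀ j, ∑ i, e i * χ j i * (v i - v j) =
    k * (((Algebra.norm ℤ (π j) - 1) / 3 : ℤ) : ZMod 3) * v j}

/-- The cube-free element `B` has the corank `r`. -/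
def CubeFreeCorank (B : 𝓞 K) (r : ℕ) : Prop :=
  ∃ (ω : 𝓞 K) (k : ZMod 3) (m : ℕ) (π : Fin m → 𝓞 K) (e : Fin m → ZMod 3)
    (χ : Fin m → Fin m → ZMod 3),
    ω ^ 2 + ω + 1 = 0 ∧ IsFactorization ω B k m π e χ ∧
      solutions k π e χ = if k = 0 then 3 ^ (r + 1) else 3 ^ r

/-- `B` has the corank `r`: it is a cube times a cube-free element of the corank `r`. -/
def Corank (B : 𝓞 K) (r : ℕ) : Prop := ∃ B₀ y : 𝓞 K, B = B₀ * y ^ 3 ∧ CubeFreeCorank B₀ r

/-- `B` is good: it is a cube, or it is no unit times a cube, not excluded and has the corank `0`. -/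
def Good (B : 𝓞 K) : Prop :=
  (∃ y : 𝓞 K, B = y ^ 3) ∨ (¬ UnitTimesCube B ∧ ¬ Excluded B ∧ Corank B 0)

/-- The product of the powers `a l ^ c l`, where `c l` is `0`, `1` or `2`. -/
def monomial {n : ℕ} (a : Fin n → 𝓞 K) (c : Fin n → Fin 3) : 𝓞 K := ∏ l, a l ^ (c l : ℕ)

/-- `F = K(∛a₁, …, ∛aₙ)`, and the degree of `F` over `K` is `3 ^ n`. -/
def IsRootField {n : ℕ} (a : Fin n → 𝓞 K) (F : Type) [Field F] [Algebra K F] : Prop :=
  Module.finrank K F = 3 ^ n ∧ ∃ θ : Fin n → F, (∀ l, θ l ^ 3 = algebraMap K F (a l)) ∧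
    IntermediateField.adjoin K (Set.range θ) = ⊤

/-- `A` and the radicands are prime to `3`, and if a product `A a^c` is a unit times a cube, then it is a
cube. -/
def Admissible {n : ℕ} (A : 𝓞 K) (a : Fin n → 𝓞 K) : Prop :=
  PrimeToThree A ∧ (∀ l, PrimeToThree (a l)) ∧
    ∀ c, UnitTimesCube (A * monomial a c) → ∃ y : 𝓞 K, A * monomial a c = y ^ 3

/-- `D` is prime to `3`, and the products `A a^c D` and `A a^c D²` are no units times cubes and not
excluded. -/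
def InClass {n : ℕ} (A : 𝓞 K) (a : Fin n → 𝓞 K) (D : 𝓞 K) : Prop :=
  PrimeToThree D ∧ ∀ c,
    (¬ UnitTimesCube (A * monomial a c * D) ∧ ¬ Excluded (A * monomial a c * D)) ∧
      ¬ UnitTimesCube (A * monomial a c * D ^ 2) ∧ ¬ Excluded (A * monomial a c * D ^ 2)

/-- The curve `E_A` is stable in `F/F₀`: the ranks over `F` and over `F₀` are the same, the `L`-functions
over `F` and over `F₀` have the same order of vanishing at `1`, the assertions of Q1 over `F` and over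
`F₀` are equivalent, and if one of the groups is finite and the `L`-function does not vanish at `1`, then
this is so for the other one. -/
def Stable (A : 𝓞 K) (F₀ F : Type) [Field F₀] [NumberField F₀] [Algebra K F₀] [Field F]
    [NumberField F] [Algebra K F] : Prop :=
  rank (curve (algebraMap K F A)) = rank (curve (algebraMap K F₀ A)) ∧
  (∀ Φ Ψ : ℂ → ℂ, Differentiable ℂ Φ → Differentiable ℂ Ψ →
    (∀ s : ℂ, (3 / 2 : ℝ) < s.re → Φ s = (curve (algebraMap K F A)).LSeries s) →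
    (∀ s : ℂ, (3 / 2 : ℝ) < s.re → Ψ s = (curve (algebraMap K F₀ A)).LSeries s) →
    analyticOrderAt Φ 1 = analyticOrderAt Ψ 1) ∧
  (RankEquality (curve (algebraMap K F A)) ↔ RankEquality (curve (algebraMap K F₀ A))) ∧
  (RankZero (curve (algebraMap K F A)) ↔ RankZero (curve (algebraMap K F₀ A)))

/-- The `D` of norm at most `X` which are squarefree and prime to `3`, to `A` and to the radicands. -/
def curveAll {n : ℕ} (A : 𝓞 K) (a : Fin n → 𝓞 K) (X : ℕ) : Set (𝓞 K) :=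
  {D : 𝓞 K | Algebra.norm ℤ D ≤ X ∧ SquarefreePrimeToThree D ∧ IsCoprime A D ∧
    ∀ l, IsCoprime (a l) D}

/-- The `D` among them which are no units, and such that the products `A a^c D` and `A a^c D²` are not
excluded. -/
def curveClass {n : ℕ} (A : 𝓞 K) (a : Fin n → 𝓞 K) (X : ℕ) : Set (𝓞 K) :=
  {D : 𝓞 K | Algebra.norm ℤ D ≤ X ∧
    (SquarefreePrimeToThree D ∧ IsCoprime A D ∧ ∀ l, IsCoprime (a l) D) ∧ ¬ IsUnit D ∧
      ∀ c, ¬ Excluded (A * monomial a c * D) ∧ ¬ Excluded (A * monomial a c * D ^ 2)}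

/-- The `D` of norm at most `X` which are squarefree and prime to `3` and to the radicands. -/
def fieldAll {n : ℕ} (a : Fin n → 𝓞 K) (X : ℕ) : Set (𝓞 K) :=
  {D : 𝓞 K | Algebra.norm ℤ D ≤ X ∧ SquarefreePrimeToThree D ∧ ∀ l, IsCoprime (a l) D}

/-- The `D` among them which are no units, and such that the products `a^c D` are not excluded. -/
def fieldClass {n : ℕ} (a : Fin n → 𝓞 K) (X : ℕ) : Set (𝓞 K) :=
  {D : 𝓞 K | Algebra.norm ℤ D ≤ X ∧
    (SquarefreePrimeToThree D ∧ ∀ l, IsCoprime (a l) D) ∧ ¬ IsUnit D ∧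
      ∀ c, ¬ Excluded (monomial a c * D)}

/-- The number of the `c` such that `a^c` is excluded. -/
noncomputable def count {n : ℕ} (a : Fin n → 𝓞 K) : ℕ :=
  Nat.card {c : Fin n → Fin 3 // Excluded (monomial a c)}

/-- The share of the class of `(A, a)`. -/
noncomputable def curveShare {n : ℕ} (A : 𝓞 K) (a : Fin n → 𝓞 K) : ℝ :=
  1 - (if ∃ c, Excluded (A * monomial a c) then 1 else 2) * 3 ^ n / (9 * count a)

/-- The share of the class of the field. -/
noncomputable def fieldShare {n : ℕ} (a : Fin n → 𝓞 K) : ℝ := 1 - 3 ^ n / (9 * count a)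

end

/-- `p_r = ∏_{i ≥ 0} (1 - 3^{-(2 i + 1)}) / ((3 - 1) (9 - 1) ⋯ (3 ^ r - 1))`. -/
noncomputable def p (r : ℕ) : ℝ :=
  (∏' i : ℕ, (1 - (1 / 3 : ℝ) ^ (2 * i + 1))) / ∏ i ∈ Finset.range r, ((3 : ℝ) ^ (i + 1) - 1)

/-- The `D` of norm at most `X` which are squarefree, `1` modulo `3` and whose norm is not `1`
modulo `9`. -/
def primary (K : Type) [Field K] [NumberField K] (X : ℕ) : Set (𝓞 K) :=
  {D : 𝓞 K | Algebra.norm ℤ D ≤ X ∧ (3 : 𝓞 K) ∣ D - 1 ∧ Squarefree D ∧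
    ¬ (9 : ℤ) ∣ Algebra.norm ℤ D - 1}

lemma rank_eq_zero {A : Type} [AddCommGroup A] [Finite A] : Module.finrank ℤ A = 0 := by
  rw [Module.finrank_eq_zero_iff_isTorsion]
  intro x
  refine ⟨⟨(addOrderOf x : ℤ), ?_⟩, ?_⟩
  · rw [mem_nonZeroDivisors_iff_ne_zero]
    exact_mod_cast (addOrderOf_pos x).ne'
  · show ((addOrderOf x : ℕ) : ℤ) • x = 0
    rw [natCast_zsmul, addOrderOf_nsmul_eq_zero]

lemma RankZero.equality {F : Type} [Field F] [NumberField F] {W : WeierstrassCurve F}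
    (h : RankZero W) : RankEquality W := by
  obtain ⟨hfin, Φ, hΦ, hL, hne⟩ := h
  intro Ψ hΨ hΨL
  have heq : Ψ = Φ := ext_unique hΨ hΦ fun s hs => by rw [hΨL s hs, hL s hs]
  unfold rank
  rw [rank_eq_zero, heq, (hΦ.analyticAt 1).analyticOrderAt_eq_zero.2 hne]
  rfl

lemma eventually_share {n m : ℕ → ℕ} {L : ℝ}
    (h : Filter.Tendsto (fun X : ℕ => (n X : ℝ) / (m X : ℝ)) Filter.atTop (nhds L)) (ε : ℝ)
    (hε : 0 < ε) : ∃ X₀ : ℕ, ∀ X : ℕ, X₀ ≤ X → (L - ε) * (m X : ℝ) ≤ (n X : ℝ) := by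
  obtain ⟨X₀, h1⟩ := Filter.eventually_atTop.1 ((tendsto_order.1 h).1 (L - ε) (by linarith))
  refine ⟨X₀, fun X hX => ?_⟩
  have h2 := h1 X hX
  rcases Nat.eq_zero_or_pos (m X) with h0 | h0
  · rw [h0, Nat.cast_zero, mul_zero]
    exact Nat.cast_nonneg _
  · rw [lt_div_iff₀ (by exact_mod_cast h0)] at h2
    exact h2.le

variable (K : Type) [Field K] [NumberField K] [IsCyclotomicExtension {3} ℚ K] in
include K in
lemma p_pos : 0.639 < p 0 ∧ p 0 < 0.6391 ∧ HasSum p 1 := by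
  obtain ⟨-, -, -, hp, -⟩ := Pool.Agent.XL6.finalXL K
  exact hp

section
variable {K : Type} [Field K] [NumberField K] [IsCyclotomicExtension {3} ℚ K]

lemma prime_mul {n : ℕ} {A : 𝓞 K} {a : Fin n → 𝓞 K} (hA : PrimeToThree A)
    (ha : ∀ l, PrimeToThree (a l)) (c : Fin n → Fin 3) : PK (A * Pool.Agent.H462.EX.pw a c) :=
  PK.mul hA (PK.pw ha c)

/-- Part (1). -/
theorem part1 {n : ℕ} {A : 𝓞 K} {a : Fin n → 𝓞 K} (h : Admissible A a) {F : Type} [Field F]
    [NumberField F] [Algebra K F] (hF : IsRootField a F) :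
    EntireLSeries (curve (algebraMap K F A)) ∧
    (∀ s : ℂ, (3 / 2 : ℝ) < s.re → (curve (algebraMap K F A)).LSeries s =
      ∏ c : Fin n → Fin 3, (curve ((A * monomial a c : 𝓞 K) : K)).LSeries s) ∧
    Module.Finite ℤ (curve (algebraMap K F A)).toAffine.Point ∧
    rank (curve (algebraMap K F A)) =
      ∑ c : Fin n → Fin 3, rank (curve ((A * monomial a c : 𝓞 K) : K)) ∧
    ((∀ c, Good (A * monomial a c)) →
      RankZero (curve (algebraMap K F A)) ∧ RankEquality (curve (algebraMap K F A))) := by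
  obtain ⟨hA, ha, hn⟩ := h
  obtain ⟨hd, θ, hθ, hg⟩ := hF
  obtain ⟨k1, k2, k3, k4⟩ := Pool.Agent.H462.GX.multi ha hA hd hθ hg
  obtain ⟨Φ, hΦ⟩ := k4 hn
  have hdiff : Differentiable ℂ fun s => ∏ c : Fin n → Fin 3, Φ c s :=
    Differentiable.fun_finsetProd fun c _ => (hΦ c).1
  have hcont : ∀ s : ℂ, (3 / 2 : ℝ) < s.re →
      LSeriesSummable ((fun n : ℤ => (n : ℂ)) ∘ (curve (algebraMap K F A)).LFunction) s ∧
        (∏ c : Fin n → Fin 3, Φ c s) = (curve (algebraMap K F A)).LSeries s := by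
    intro s hs
    have hs' : 3 / 2 < s.re := by simpa using hs
    obtain ⟨m1, m2⟩ := k3 s hs'
    refine ⟨m1, ?_⟩
    refine Eq.trans (Finset.prod_congr rfl fun c _ => (hΦ c).2 s hs') m2.symm
  refine ⟨⟨_, hdiff, hcont⟩, fun s hs => (k3 s (by simpa using hs)).2, k1, k2, fun hgood => ?_⟩
  have hz : RankZero (curve (algebraMap K F A)) := by
    refine ⟨fin_of_rank k1 ?_, _, hdiff, fun s hs => (hcont s hs).2, ?_⟩
    · exact k2.trans (Finset.sum_eq_zero fun c _ =>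
        Pool.Agent.H462.GX.goodG_rank (prime_mul hA ha c) (hgood c))
    · refine Finset.prod_ne_zero_iff.2 fun c _ => ?_
      exact Pool.Agent.H462.GX.goodG_val (prime_mul hA ha c) (hgood c) (hΦ c).1 fun s hs =>
        (hΦ c).2 s (by simpa using hs)
  exact ⟨hz, hz.equality⟩

/-- The stability from the product of the `L`-functions. -/
lemma stable_gen {A : 𝓞 K} {F₀ F : Type} [Field F₀] [NumberField F₀] [Algebra K F₀] [Field F]
    [NumberField F] [Algebra K F]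
    (k0 : Module.Finite ℤ (curve (algebraMap K F₀ A)).toAffine.Point)
    (k1 : Module.Finite ℤ (curve (algebraMap K F A)).toAffine.Point)
    (hrk : rank (curve (algebraMap K F A)) = rank (curve (algebraMap K F₀ A))) {Φ0 G : ℂ → ℂ}
    (d0 : Differentiable ℂ Φ0) (dG : Differentiable ℂ G)
    (l0 : ∀ s : ℂ, (3 / 2 : ℝ) < s.re → Φ0 s = (curve (algebraMap K F₀ A)).LSeries s)
    (lF : ∀ s : ℂ, (3 / 2 : ℝ) < s.re → Φ0 s * G s = (curve (algebraMap K F A)).LSeries s)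
    (hG1 : G 1 ≠ 0) : Stable A F₀ F := by
  have hord : analyticOrderAt (fun s => Φ0 s * G s) 1 = analyticOrderAt Φ0 1 := order_mul d0 dG hG1
  have hΦ : ∀ Φ : ℂ → ℂ, Differentiable ℂ Φ →
      (∀ s : ℂ, (3 / 2 : ℝ) < s.re → Φ s = (curve (algebraMap K F A)).LSeries s) →
      Φ = fun s => Φ0 s * G s := fun Φ e1 e2 =>
    ext_unique e1 (d0.mul dG) fun s hs => (e2 s hs).trans (lF s hs).symm
  have hΨ : ∀ Ψ : ℂ → ℂ, Differentiable ℂ Ψ →
      (∀ s : ℂ, (3 / 2 : ℝ) < s.re → Ψ s = (curve (algebraMap K F₀ A)).LSeries s) → Ψ = Φ0 :=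
    fun Ψ e1 e2 => ext_unique e1 d0 fun s hs => (e2 s hs).trans (l0 s hs).symm
  refine ⟨hrk, fun Φ Ψ e1 e2 e3 e4 => by rw [hΦ Φ e1 e3, hΨ Ψ e2 e4, hord],
    ⟨fun he => ?_, fun he => ?_⟩, fun hz => ?_, fun hz => ?_⟩
  · intro Ψ e1 e2
    rw [hΨ Ψ e1 e2, ← hord, ← hrk]
    exact he _ (d0.mul dG) fun s hs => lF s hs
  · intro Φ e1 e2
    rw [hΦ Φ e1 e2, hord, hrk]
    exact he _ d0 fun s hs => l0 s hs
  · obtain ⟨hfin, Φ, e1, e2, e3⟩ := hz
    refine ⟨fin_of_rank k0 ?_, _, d0, fun s hs => l0 s hs, ?_⟩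
    · refine hrk.symm.trans ?_
      unfold rank
      exact rank_eq_zero
    · rw [hΦ Φ e1 e2] at e3
      exact left_ne_zero_of_mul e3
  · obtain ⟨hfin, Ψ, e1, e2, e3⟩ := hz
    refine ⟨fin_of_rank k1 ?_, _, d0.mul dG, fun s hs => lF s hs, ?_⟩
    · refine hrk.trans ?_
      unfold rank
      exact rank_eq_zero
    · rw [hΨ Ψ e1 e2] at e3
      exact mul_ne_zero e3 hG1

/-- Part (2). -/
theorem part2 {n : ℕ} {A : 𝓞 K} {a : Fin n → 𝓞 K} (h : Admissible A a) {D : 𝓞 K}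
    (hD : InClass A a D) {F₀ : Type} [Field F₀] [NumberField F₀] [Algebra K F₀]
    (hF₀ : IsRootField a F₀) {F : Type} [Field F] [NumberField F] [Algebra K F]
    (hF : IsRootField (Fin.cons D a : Fin (n + 1) → 𝓞 K) F) {r r' : (Fin n → Fin 3) → ℕ}
    (hr : ∀ c, Corank (A * monomial a c * D) (r c) ∧ Corank (A * monomial a c * D ^ 2) (r' c)) :
    rank (curve (algebraMap K F A)) ≤
      rank (curve (algebraMap K F₀ A)) + 2 * ∑ c, (r c + r' c) ∧
    ((∀ c, r c = 0 ∧ r' c = 0) → Stable A F₀ F) := by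
  obtain ⟨hA, ha, hn⟩ := h
  obtain ⟨hD3, hcl⟩ := hD
  obtain ⟨hd₀, θ₀, hθ₀, hg₀⟩ := hF₀
  obtain ⟨hd, θ, hθ, hg⟩ := hF
  obtain ⟨k0, k1, k3, Φ0, G, d0, dG, l0, lF, hG⟩ := Pool.Agent.H462.GX.more ha hA hD3
    (fun c => ⟨hn c, fun hu => absurd hu (hcl c).1.1, fun hu => absurd hu (hcl c).2.1⟩)
    hd₀ hθ₀ hg₀ hd hθ hg
  have hq : ∀ c, Module.finrank ℤ (curve ((A * monomial a c * D : 𝓞 K) : K)).toAffine.Point ≤
      2 * r c ∧ Module.finrank ℤ (curve ((A * monomial a c * D ^ 2 : 𝓞 K) : K)).toAffine.Point ≤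
      2 * r' c := fun c =>
    ⟨(Pool.Agent.H462.GX.oneA (PK.mul (prime_mul hA ha c) hD3) (hcl c).1.1 (hcl c).1.2
      (hr c).1).2.1,
    (Pool.Agent.H462.GX.oneA (PK.mul (prime_mul hA ha c) (PK.pow hD3 2)) (hcl c).2.1 (hcl c).2.2
      (hr c).2).2.1⟩
  refine ⟨?_, fun h0 => ?_⟩
  · unfold rank
    refine k3.le.trans ?_
    refine Nat.add_le_add_left ?_ _
    rw [Finset.mul_sum]
    refine Finset.sum_le_sum fun c _ => ?_
    have q := hq c
    rw [mul_add]
    exact Nat.add_le_add q.1 q.2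
  have hG1 : G 1 ≠ 0 := by
    refine hG fun c => ⟨Or.inr ⟨(hcl c).1.1, (hcl c).1.2, ?_⟩, Or.inr ⟨(hcl c).2.1, (hcl c).2.2, ?_⟩⟩
    · have := (hr c).1
      rw [(h0 c).1] at this
      exact this
    · have := (hr c).2
      rw [(h0 c).2] at this
      exact this
  have hrk : rank (curve (algebraMap K F A)) = rank (curve (algebraMap K F₀ A)) := by
    refine k3.trans ?_
    rw [Finset.sum_eq_zero fun c _ => ?_, add_zero]
    · rfl
    · have q := hq c
      rw [(h0 c).1, (h0 c).2, mul_zero] at q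
      exact Nat.add_eq_zero_iff.2 ⟨Nat.le_zero.1 q.1, Nat.le_zero.1 q.2⟩
  exact stable_gen k0 k1 hrk d0 dG (fun s hs => (l0 s hs).2) (fun s hs => (lF s hs).2) hG1

/-- The coranks of the class. -/
lemma coranks {n : ℕ} {A : 𝓞 K} {a : Fin n → 𝓞 K} (h : Admissible A a) {D : 𝓞 K}
    (hD : InClass A a D) (c : Fin n → Fin 3) : (∃! r, Corank (A * monomial a c * D) r) ∧
      ∃! r, Corank (A * monomial a c * D ^ 2) r :=
  ⟨Pool.Agent.H462.GX.exu (PK.mul (prime_mul h.1 h.2.1 c) hD.1) (hD.2 c).1.1,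
    Pool.Agent.H462.GX.exu (PK.mul (prime_mul h.1 h.2.1 c) (PK.pow hD.1 2)) (hD.2 c).2.1⟩

/-- The fields exist. -/
lemma root_more {n : ℕ} {a : Fin n → 𝓞 K} (ha : ∀ l, a l ≠ 0) {D : 𝓞 K}
    (hD : ∀ (c : Fin n → Fin 3) (y : 𝓞 K), D * monomial a c ≠ y ^ 3) {F₀ : Type}
    [Field F₀] [NumberField F₀] [Algebra K F₀] (hF₀ : IsRootField a F₀) :
    ∃ (F : Type) (_ : Field F) (_ : NumberField F) (_ : Algebra K F),
      IsRootField (Fin.cons D a : Fin (n + 1) → 𝓞 K) F := by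
  obtain ⟨hd₀, θ₀, hθ₀, hg₀⟩ := hF₀
  obtain ⟨F, f1, f2, f3, θ, k1, k2, k3⟩ := Pool.Agent.H462.GX.root_more ha hD hd₀ hθ₀ hg₀
  exact ⟨F, f1, f2, f3, k1, θ, k2, k3⟩

/-- The twists of the squarefree elements. -/
lemma sq_twist {n : ℕ} {A : 𝓞 K} {a : Fin n → 𝓞 K} (hA : PrimeToThree A)
    (ha : ∀ l, PrimeToThree (a l)) {D : 𝓞 K} (hD : SquarefreePrimeToThree D) (hu : ¬ IsUnit D)
    (hAD : IsCoprime A D) (haD : ∀ l, IsCoprime (a l) D) (c : Fin n → Fin 3) :
    ¬ UnitTimesCube (A * monomial a c * D) ∧ ¬ UnitTimesCube (A * monomial a c * D ^ 2) :=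
  Pool.Agent.H462.GX.not_uc (prime_mul hA ha c) hD hu
    (hAD.mul_left (IsCoprime.prod_left fun l _ => IsCoprime.pow_left (haD l)))

/-- The hypotheses of part (3). -/
structure Cv {n : ℕ} (A : 𝓞 K) (a : Fin n → 𝓞 K) : Prop where
  cA : CubeFreePrimeToThree A
  ca : ∀ l, CubeFreePrimeToThree (a l)
  nu : ∀ c, ¬ UnitTimesCube (A * monomial a c)

lemma Cv.adm {n : ℕ} {A : 𝓞 K} {a : Fin n → 𝓞 K} (h : Cv A a) : Admissible A a :=
  ⟨h.cA.2, fun l => (h.ca l).2, fun c hc => absurd hc (h.nu c)⟩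

lemma Cv.cls {n : ℕ} {A : 𝓞 K} {a : Fin n → 𝓞 K} (h : Cv A a) {X : ℕ} {D : 𝓞 K}
    (hD : D ∈ curveClass A a X) : InClass A a D := by
  refine ⟨hD.2.1.1.2, fun c => ?_⟩
  obtain ⟨h1, h2⟩ := sq_twist h.cA.2 (fun l => (h.ca l).2) hD.2.1.1 hD.2.2.1 hD.2.1.2.1 hD.2.1.2.2 c
  exact ⟨⟨h1, (hD.2.2.2 c).1⟩, h2, (hD.2.2.2 c).2⟩

lemma curveAll_finite {n : ℕ} {A : 𝓞 K} {a : Fin n → 𝓞 K} (h : Cv A a) (X : ℕ) :
    (curveAll A a X).Finite :=
  (Pool.Agent.H462.GX.famC h.ca h.cA h.nu).1 X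

lemma curveClass_sub {n : ℕ} (A : 𝓞 K) (a : Fin n → 𝓞 K) (X : ℕ) :
    curveClass A a X ⊆ curveAll A a X :=
  fun D hD => ⟨hD.1, hD.2.1.1, hD.2.1.2.1, hD.2.1.2.2⟩

lemma fieldAll_finite {n : ℕ} {a : Fin n → 𝓞 K} (h : ∀ l, CubeFreePrimeToThree (a l)) (X : ℕ) :
    (fieldAll a X).Finite := (Pool.Agent.H462.GX.famF h).1 X

lemma fieldClass_sub {n : ℕ} (a : Fin n → 𝓞 K) (X : ℕ) : fieldClass a X ⊆ fieldAll a X :=
  fun D hD => ⟨hD.1, hD.2.1.1, hD.2.1.2⟩

lemma share_field {n : ℕ} {a : Fin n → 𝓞 K} (h : ∀ l, PrimeToThree (a l)) :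
    (9 - (Pool.Agent.H462.EX.celF a : ℝ)) / 9 = fieldShare a ∧
      (0 < fieldShare a → Pool.Agent.H462.EX.celF a < 9) := by
  obtain ⟨h1, h2⟩ := Pool.Agent.H462.GX.share_eq h
  have h3 : Pool.Agent.H462.EX.cnt a = count a := rfl
  rw [h3] at h1 h2
  have h4 : (count a : ℝ) ≠ 0 := by exact_mod_cast h2.ne'
  have h5 : (9 - (Pool.Agent.H462.EX.celF a : ℝ)) / 9 = fieldShare a := by
    unfold fieldShare
    rw [h1]
    field_simp
  refine ⟨h5, fun h0 => ?_⟩
  rw [← h5] at h0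
  have : ((Pool.Agent.H462.EX.celF a : ℕ) : ℝ) < 9 := by linarith
  exact_mod_cast this

lemma share_curve {n : ℕ} {A : 𝓞 K} {a : Fin n → 𝓞 K} (hA : PrimeToThree A)
    (h : ∀ l, PrimeToThree (a l)) :
    (9 - (Pool.Agent.H462.EX.celC A a : ℝ)) / 9 = curveShare A a ∧
      (0 < curveShare A a → Pool.Agent.H462.EX.celC A a < 9) := by
  obtain ⟨h1, h2⟩ := Pool.Agent.H462.GX.share_eq h
  have h3 : Pool.Agent.H462.EX.cnt a = count a := rfl
  rw [h3] at h1 h2
  have h4 : (count a : ℝ) ≠ 0 := by exact_mod_cast h2.ne'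
  have h6 := Pool.Agent.H462.GX.celC_eq h hA
  have h5 : (9 - (Pool.Agent.H462.EX.celC A a : ℝ)) / 9 = curveShare A a := by
    unfold curveShare
    rw [h6, Nat.cast_mul, h1]
    have e : (∃ c : Fin n → Fin 3, Pool.Agent.H462.JL.badK (A * Pool.Agent.H462.EX.pw a c)) ↔
        ∃ c, Excluded (A * monomial a c) := Iff.rfl
    by_cases hb : ∃ c, Excluded (A * monomial a c)
    · rw [if_pos (e.2 hb), if_pos hb]
      field_simp
      push_cast
      ring
    · rw [if_neg (fun h => hb (e.1 h)), if_neg hb]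
      field_simp
      push_cast
      ring
  refine ⟨h5, fun h0 => ?_⟩
  rw [← h5] at h0
  have : ((Pool.Agent.H462.EX.celC A a : ℕ) : ℝ) < 9 := by linarith
  exact_mod_cast this

end

section
variable {K : Type} [Field K] [NumberField K] [IsCyclotomicExtension {3} ℚ K]

/-- The product of the class share and the conditional share. -/
lemma mul_share {S T U : ℕ → Set (𝓞 K)} (hU : ∀ X, (U X).Finite) (hTU : ∀ X, T X ⊆ U X)
    (hST : ∀ X, S X ⊆ T X) {c q : ℝ}
    (h1 : Filter.Tendsto (fun X : ℕ => ((T X).ncard : ℝ) / ((U X).ncard : ℝ)) Filter.atTop (nhds c))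
    (h2 : Filter.Tendsto (fun X : ℕ => ((S X).ncard : ℝ) / ((T X).ncard : ℝ)) Filter.atTop
      (nhds q)) :
    Filter.Tendsto (fun X : ℕ => ((S X).ncard : ℝ) / ((U X).ncard : ℝ)) Filter.atTop
      (nhds (c * q)) := by
  refine (h1.mul h2).congr fun X => ?_
  rcases Nat.eq_zero_or_pos (T X).ncard with h0 | h0
  · have h3 : T X = ∅ := (Set.ncard_eq_zero ((hU X).subset (hTU X))).1 h0
    have h4 : S X = ∅ := Set.subset_empty_iff.1 (h3 ▸ hST X)
    rw [h4, h3]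
    simp
  · have h3 : ((T X).ncard : ℝ) ≠ 0 := by exact_mod_cast h0.ne'
    rw [div_mul_div_comm, mul_comm ((U X).ncard : ℝ), mul_div_mul_left _ _ h3]

lemma prod_zero_two (n : ℕ) : ∏ _c : Fin n → Fin 3, p 0 * p 0 = p 0 ^ (2 * 3 ^ n) := by
  rw [Finset.prod_const, Finset.card_univ, Fintype.card_fun, Fintype.card_fin, Fintype.card_fin,
    ← sq, ← pow_mul]

lemma prod_zero_one (n : ℕ) : ∏ _c : Fin n → Fin 3, p 0 = p 0 ^ (3 ^ n) := by
  rw [Finset.prod_const, Finset.card_univ, Fintype.card_fun, Fintype.card_fin, Fintype.card_fin]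

/-- Part (3). -/
theorem part3 {n : ℕ} {A : 𝓞 K} {a : Fin n → 𝓞 K} (h : Cv A a)
    {F₀ : Type} [Field F₀] [NumberField F₀] [Algebra K F₀] (hF₀ : IsRootField a F₀) :
    (∃ c : ℝ, 0 < c ∧ ∃ X₀ : ℕ, ∀ X : ℕ, X₀ ≤ X → c * X ≤ ((curveAll A a X).ncard : ℝ)) ∧
    Filter.Tendsto (fun X : ℕ => ((curveClass A a X).ncard : ℝ) / ((curveAll A a X).ncard : ℝ))
      Filter.atTop (nhds (curveShare A a)) ∧
    (0 < curveShare A a → ∀ r r' : (Fin n → Fin 3) → ℕ, Filter.Tendsto (fun X : ℕ =>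
      (({D ∈ curveClass A a X | ∀ c, Corank (A * monomial a c * D) (r c) ∧
        Corank (A * monomial a c * D ^ 2) (r' c)}.ncard : ℕ) : ℝ) /
          ((curveClass A a X).ncard : ℝ)) Filter.atTop (nhds (∏ c, p (r c) * p (r' c)))) ∧
    (∀ B : 𝓞 K, PrimeToThree B → ∀ r r' : (Fin n → Fin 3) → ℕ,
      Filter.Tendsto (fun X : ℕ => (({D ∈ curveAll A a X | (¬ IsUnit D ∧ Excluded (D * B ^ 2)) ∧
        ∀ c, Corank (A * monomial a c * D) (r c) ∧
          Corank (A * monomial a c * D ^ 2) (r' c)}.ncard : ℕ) : ℝ) /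
            ((curveAll A a X).ncard : ℝ)) Filter.atTop
              (nhds (1 / 9 * ∏ c, p (r c) * p (r' c)))) ∧
    (∀ ε : ℝ, 0 < ε → ∃ X₀ : ℕ, ∀ X : ℕ, X₀ ≤ X →
      (curveShare A a * p 0 ^ (2 * 3 ^ n) - ε) * ((curveAll A a X).ncard : ℝ) ≤
      (({D ∈ curveAll A a X | ∀ (F : Type) [Field F] [NumberField F] [Algebra K F],
        IsRootField (Fin.cons D a : Fin (n + 1) → 𝓞 K) F → Stable A F₀ F}.ncard : ℕ) : ℝ)) := by
  obtain ⟨h1, h2, h3, h4, h5, h6, h8⟩ := Pool.Agent.H462.GX.famC h.ca h.cA h.nu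
  obtain ⟨s1, s2⟩ := share_curve h.cA.2 fun l => (h.ca l).2
  have hI : Pool.Agent.H462.GX.IndG a := by
    obtain ⟨hd₀, θ₀, hθ₀, hg₀⟩ := hF₀
    exact Pool.Agent.H462.GX.ind_G (fun l => PK.ne (h.ca l).2) hd₀ hθ₀ hg₀
  rw [s1] at h4 h6
  refine ⟨h2, h4, fun h0 => h5 hI (s2 h0), fun B hB r r' => h8 hI B hB r r', fun ε hε => ?_⟩
  have h7 := h6 hI (fun _ => 0) (fun _ => 0)
  have e : ∏ _c : Fin n → Fin 3, Pool.Agent.Y703.XL.cr 0 * Pool.Agent.Y703.XL.cr 0 =
      p 0 ^ (2 * 3 ^ n) := prod_zero_two n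
  rw [e] at h7
  obtain ⟨X₀, k⟩ := eventually_share h7 ε hε
  refine ⟨X₀, fun X hX => (k X hX).trans ?_⟩
  norm_cast
  refine Set.ncard_le_ncard ?_ ((curveAll_finite h X).subset fun D hD => hD.1)
  rintro D ⟨m1, m2⟩
  exact ⟨curveClass_sub A a X m1, fun F _ _ _ hF =>
    (part2 h.adm (h.cls m1) hF₀ hF m2).2 fun c => ⟨rfl, rfl⟩⟩

/-- The curves `E_D` over the field. -/
lemma adm_field {n : ℕ} {a : Fin n → 𝓞 K} (ha : ∀ l, PrimeToThree (a l)) {X : ℕ} {D : 𝓞 K}
    (hD : D ∈ fieldClass a X) : Admissible D a ∧ ∀ c, ¬ UnitTimesCube (D * monomial a c) := by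
  have h : ∀ c, ¬ UnitTimesCube (D * monomial a c) := by
    intro c
    have := (sq_twist (A := 1) PK.one ha hD.2.1.1 hD.2.2.1 isCoprime_one_left hD.2.1.2 c).1
    rwa [one_mul, mul_comm] at this
  exact ⟨⟨hD.2.1.1.2, ha, fun c hc => absurd hc (h c)⟩, h⟩

/-- The class of `E_1`. -/
lemma class_one {n : ℕ} {a : Fin n → 𝓞 K} (ha : ∀ l, PrimeToThree (a l)) {X : ℕ} {D : 𝓞 K}
    (hD : D ∈ fieldClass a X) : InClass (1 : 𝓞 K) a D := by
  refine ⟨hD.2.1.1.2, fun c => ?_⟩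
  obtain ⟨h1, h2⟩ := sq_twist (A := 1) PK.one ha hD.2.1.1 hD.2.2.1 isCoprime_one_left hD.2.1.2 c
  refine ⟨⟨h1, ?_⟩, h2, fun h => ?_⟩
  · rw [one_mul]
    exact hD.2.2.2 c
  · rw [one_mul] at h
    exact hD.2.2.2 _ ((Pool.Agent.H462.GX.bad_inv ha hD.2.1.1.2 c).1 h)

/-- The negative exponents. -/
def neg {n : ℕ} (c : Fin n → Fin 3) : Fin n → Fin 3 := fun l => Pool.Agent.H462.EX.n3 (c l)

lemma neg_sum {n : ℕ} (r : (Fin n → Fin 3) → ℕ) : ∑ c, r (neg c) = ∑ c, r c := by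
  have h3 : ∀ i, Pool.Agent.H462.EX.n3 (Pool.Agent.H462.EX.n3 i) = i := by decide
  have h : Function.Involutive (neg (n := n)) := fun c => funext fun l => h3 (c l)
  exact (Equiv.ofBijective _ h.bijective).sum_comp r

/-- Part (4), one curve. -/
theorem part4a {n : ℕ} {a : Fin n → 𝓞 K} (ha : ∀ l, PrimeToThree (a l)) {F₀ : Type} [Field F₀]
    [NumberField F₀] [Algebra K F₀] (hF₀ : IsRootField a F₀) {X : ℕ} {D : 𝓞 K}
    (hD : D ∈ fieldClass a X) {r : (Fin n → Fin 3) → ℕ} (hr : ∀ c, Corank (monomial a c * D) (r c)) :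
    Module.Finite ℤ (curve (algebraMap K F₀ D)).toAffine.Point ∧
    rank (curve (algebraMap K F₀ D)) ≤ 2 * ∑ c, r c ∧
    ((∀ c, r c = 0) →
      RankZero (curve (algebraMap K F₀ D)) ∧ RankEquality (curve (algebraMap K F₀ D))) ∧
    (Admissible (1 : 𝓞 K) a → ∀ (F : Type) [Field F] [NumberField F] [Algebra K F],
      IsRootField (Fin.cons D a : Fin (n + 1) → 𝓞 K) F →
        rank (curve (algebraMap K F (1 : 𝓞 K))) ≤
          rank (curve (algebraMap K F₀ (1 : 𝓞 K))) + 4 * ∑ c, r c ∧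
        ((∀ c, r c = 0) → Stable (1 : 𝓞 K) F₀ F)) := by
  obtain ⟨hadm, hu⟩ := adm_field ha hD
  obtain ⟨-, -, k3, k4, k5⟩ := part1 hadm hF₀
  have hc : ∀ c, Corank (D * monomial a c) (r c) := fun c => by
    rw [mul_comm]
    exact hr c
  have hb : ∀ c, ¬ Excluded (D * monomial a c) := fun c => by
    rw [mul_comm]
    exact hD.2.2.2 c
  refine ⟨k3, ?_, fun h0 => k5 fun c => Or.inr ⟨hu c, hb c, ?_⟩, fun hau F _ _ _ hF => ?_⟩
  · rw [k4, Finset.mul_sum]
    exact Finset.sum_le_sum fun c _ =>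
      (Pool.Agent.H462.GX.oneA (prime_mul hadm.1 ha c) (hu c) (hb c) (hc c)).2.1
  · have := hc c
    rwa [h0 c] at this
  · have hr' : ∀ c, Corank (1 * monomial a c * D) (r c) ∧
        Corank (1 * monomial a c * D ^ 2) (r (neg c)) := by
      intro c
      rw [one_mul]
      exact ⟨hr c, (Pool.Agent.H462.GX.cor_inv ha hD.2.1.1.2 c _).2 (hr (neg c))⟩
    obtain ⟨m1, m2⟩ := part2 hau (class_one ha hD) hF₀ hF hr'
    refine ⟨m1.trans ?_, fun h0 => m2 fun c => ⟨h0 c, h0 _⟩⟩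
    rw [Finset.sum_add_distrib, neg_sum]
    omega

/-- Part (4). -/
theorem part4 {n : ℕ} {a : Fin n → 𝓞 K} (ha : ∀ l, CubeFreePrimeToThree (a l)) {F₀ : Type}
    [Field F₀] [NumberField F₀] [Algebra K F₀] (hF₀ : IsRootField a F₀) :
    (∃ c : ℝ, 0 < c ∧ ∃ X₀ : ℕ, ∀ X : ℕ, X₀ ≤ X → c * X ≤ ((fieldAll a X).ncard : ℝ)) ∧
    Filter.Tendsto (fun X : ℕ => ((fieldClass a X).ncard : ℝ) / ((fieldAll a X).ncard : ℝ))
      Filter.atTop (nhds (fieldShare a)) ∧
    (0 < fieldShare a → ∀ r : (Fin n → Fin 3) → ℕ, Filter.Tendsto (fun X : ℕ =>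
      (({D ∈ fieldClass a X | ∀ c, Corank (monomial a c * D) (r c)}.ncard : ℕ) : ℝ) /
        ((fieldClass a X).ncard : ℝ)) Filter.atTop (nhds (∏ c, p (r c)))) ∧
    (∀ B : 𝓞 K, PrimeToThree B → ∀ r : (Fin n → Fin 3) → ℕ,
      Filter.Tendsto (fun X : ℕ => (({D ∈ fieldAll a X | (¬ IsUnit D ∧ Excluded (D * B ^ 2)) ∧
        ∀ c, Corank (monomial a c * D) (r c)}.ncard : ℕ) : ℝ) / ((fieldAll a X).ncard : ℝ))
          Filter.atTop (nhds (1 / 9 * ∏ c, p (r c)))) ∧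
    (∀ ε : ℝ, 0 < ε → ∃ X₀ : ℕ, ∀ X : ℕ, X₀ ≤ X →
      (fieldShare a * p 0 ^ (3 ^ n) - ε) * ((fieldAll a X).ncard : ℝ) ≤
      (({D ∈ fieldAll a X | RankZero (curve (algebraMap K F₀ D)) ∧
        RankEquality (curve (algebraMap K F₀ D)) ∧
        (Admissible (1 : 𝓞 K) a → ∀ (F : Type) [Field F] [NumberField F] [Algebra K F],
          IsRootField (Fin.cons D a : Fin (n + 1) → 𝓞 K) F → Stable (1 : 𝓞 K) F₀ F)}.ncard : ℕ) :
            ℝ)) := by
  have ha3 : ∀ l, PrimeToThree (a l) := fun l => (ha l).2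
  obtain ⟨h1, h2, h3, h4, h5, h6, h8⟩ := Pool.Agent.H462.GX.famF ha
  obtain ⟨s1, s2⟩ := share_field ha3
  have hI : Pool.Agent.H462.GX.IndG a := by
    obtain ⟨hd₀, θ₀, hθ₀, hg₀⟩ := hF₀
    exact Pool.Agent.H462.GX.ind_G (fun l => PK.ne (ha l).2) hd₀ hθ₀ hg₀
  rw [s1] at h4 h6
  refine ⟨h2, h4, fun h0 => h5 hI (s2 h0), fun B hB r => h8 hI B hB r, fun ε hε => ?_⟩
  have h7 := h6 hI (fun _ => 0)
  have e : ∏ _c : Fin n → Fin 3, Pool.Agent.Y703.XL.cr 0 = p 0 ^ (3 ^ n) := prod_zero_one n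
  rw [e] at h7
  obtain ⟨X₀, k⟩ := eventually_share h7 ε hε
  refine ⟨X₀, fun X hX => (k X hX).trans ?_⟩
  norm_cast
  refine Set.ncard_le_ncard ?_ ((fieldAll_finite ha X).subset fun D hD => hD.1)
  rintro D ⟨m1, m2⟩
  obtain ⟨-, -, q1, q2⟩ := part4a ha3 hF₀ m1 m2
  exact ⟨fieldClass_sub a X m1, (q1 fun c => rfl).1, (q1 fun c => rfl).2, fun hau F _ _ _ hF =>
    (q2 hau F hF).2 fun c => rfl⟩

/-- The base field. -/
lemma base_root : IsRootField (Fin.elim0 : Fin 0 → 𝓞 K) K := by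
  obtain ⟨h1, h2⟩ := Pool.Agent.H462.EX.base_root K
  exact ⟨h1, Fin.elim0, fun l => l.elim0, h2⟩

/-- The class of `E_1` over `K`. -/
lemma mem_zero {D : 𝓞 K} (hD : SquarefreePrimeToThree D) (hu : ¬ IsUnit D) (hb : ¬ Excluded D) :
    D ∈ fieldClass (Fin.elim0 : Fin 0 → 𝓞 K) (Algebra.norm ℤ D).toNat := by
  refine ⟨Int.self_le_toNat _, ⟨hD, fun l => l.elim0⟩, hu, fun c => ?_⟩
  have : monomial (Fin.elim0 : Fin 0 → 𝓞 K) c = 1 := Finset.prod_empty
  rw [this, one_mul]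
  exact hb

lemma adm_zero : Admissible (1 : 𝓞 K) (Fin.elim0 : Fin 0 → 𝓞 K) := by
  refine ⟨PK.one, fun l => l.elim0, fun c _ => ⟨1, ?_⟩⟩
  have : monomial (Fin.elim0 : Fin 0 → 𝓞 K) c = 1 := Finset.prod_empty
  rw [this, one_mul, one_pow]

/-- The curve over one field. -/
lemma one_curve {F : Type} [Field F] [NumberField F] [Algebra K F] :
    curve (algebraMap K F ((1 : 𝓞 K) : K)) = curve (1 : F) := by
  have h : ((1 : 𝓞 K) : K) = 1 := map_one (algebraMap (𝓞 K) K)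
  rw [h, map_one]

lemma zero_one : RankZero (curve (1 : K)) := by
  obtain ⟨a1, Φ, a2, a3, a4⟩ := oneE (K := K)
  exact ⟨a1, Φ, a2, fun s hs => (a3 s hs).2, a4⟩

/-- Part (5), one field. -/
theorem part5a {D : 𝓞 K} (hD : SquarefreePrimeToThree D) (hu : ¬ IsUnit D) (hb : ¬ Excluded D)
    {F : Type} [Field F] [NumberField F] [Algebra K F] (hF : IsRootField ![D] F) :
    (∀ r, Corank D r → rank (curve (1 : F)) ≤ 4 * r) ∧
      (Corank D 0 → RankZero (curve (1 : F)) ∧ RankEquality (curve (1 : F)) ∧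
        ShaThree (curve (1 : F)) ∧ ((3 : 𝓞 K) ∣ D - 1 → D ≠ -2 →
          Nat.card (curve (1 : F)).toAffine.Point = 9)) := by
  have hm := mem_zero hD hu hb
  have hF' : IsRootField (Fin.cons D (Fin.elim0 : Fin 0 → 𝓞 K) : Fin 1 → 𝓞 K) F := by
    have e : (![D] : Fin 1 → 𝓞 K) = Fin.cons D (Fin.elim0 : Fin 0 → 𝓞 K) := by
      funext l
      refine Fin.cases rfl (fun i => i.elim0) l
    rw [← e]
    exact hF
  have hc : ∀ r, Corank D r → ∀ c : Fin 0 → Fin 3,
      Corank (monomial (Fin.elim0 : Fin 0 → 𝓞 K) c * D) r := by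
    intro r hr c
    have : monomial (Fin.elim0 : Fin 0 → 𝓞 K) c = 1 := Finset.prod_empty
    rw [this, one_mul]
    exact hr
  have h1 : algebraMap K K ((1 : 𝓞 K) : K) = 1 := map_one (algebraMap (𝓞 K) K)
  have hz : rank (curve (1 : K)) = 0 := by
    have := (zero_one (K := K)).1
    unfold rank
    exact rank_eq_zero
  refine ⟨fun r hr => ?_, fun hr => ?_⟩
  · obtain ⟨-, -, -, q⟩ := part4a (fun l => l.elim0) base_root hm (hc r hr)
    have q1 := (q adm_zero F hF').1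
    rw [one_curve, h1, hz] at q1
    simpa using q1
  · obtain ⟨-, -, -, q⟩ := part4a (fun l => l.elim0) base_root hm (hc 0 hr)
    have q1 := ((q adm_zero F hF').2 fun _ => rfl).2.2.2
    rw [one_curve, h1] at q1
    have hz := q1.2 zero_one
    obtain ⟨hd, θ, hθ, -⟩ := hF
    rw [pow_one] at hd
    have hr' := (Pool.Agent.H462.GX.corA_cf (Pool.Agent.H462.EX.cf_AK hD) 0).1 hr
    exact ⟨hz, hz.equality, shaE hD hu hb hr' hd (hθ 0), fun h3 h2 =>
      cardE hD hu h3 h2 hd (hθ 0) hz.1⟩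

/-- Part (5). -/
theorem part5 : ∃ X₀ : ℕ, ∀ X : ℕ, X₀ ≤ X →
    0.568 * ((fieldAll (Fin.elim0 : Fin 0 → 𝓞 K) X).ncard : ℝ) ≤
    (({D ∈ fieldAll (Fin.elim0 : Fin 0 → 𝓞 K) X |
      ∀ (F : Type) [Field F] [NumberField F] [Algebra K F], IsRootField ![D] F →
        RankZero (curve (1 : F)) ∧ RankEquality (curve (1 : F)) ∧
          ShaThree (curve (1 : F))}.ncard : ℕ) : ℝ) := by
  have hel : ∀ l : Fin 0, CubeFreePrimeToThree ((Fin.elim0 : Fin 0 → 𝓞 K) l) := fun l => l.elim0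
  obtain ⟨-, h4, h5, -, -⟩ := part4 (K := K) hel base_root
  have hp := (p_pos K).1
  have hcnt : count (Fin.elim0 : Fin 0 → 𝓞 K) = 1 :=
    Pool.Agent.H462.EX.cnt_bad fun l => l.elim0
  have hsh : fieldShare (Fin.elim0 : Fin 0 → 𝓞 K) = 8 / 9 := by
    unfold fieldShare
    rw [hcnt]
    norm_num
  rw [hsh] at h4 h5
  have h6 := mul_share (fun X => fieldAll_finite hel X) (fieldClass_sub _)
    (fun X D hD => hD.1) h4 (h5 (by norm_num) fun _ => 0)
  have e : ∏ _c : Fin 0 → Fin 3, p 0 = p 0 := by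
    rw [prod_zero_one, pow_zero, pow_one]
  rw [e] at h6
  obtain ⟨X₀, k⟩ := eventually_share h6 (8 / 9 * p 0 - 0.568) (by linarith)
  refine ⟨X₀, fun X hX => ?_⟩
  have k1 := k X hX
  rw [sub_sub_cancel] at k1
  refine k1.trans ?_
  norm_cast
  refine Set.ncard_le_ncard ?_ ((fieldAll_finite hel X).subset fun D hD => hD.1)
  rintro D ⟨m1, m2⟩
  refine ⟨fieldClass_sub _ X m1, fun F _ _ _ hF => ?_⟩
  have hmon : monomial (Fin.elim0 : Fin 0 → 𝓞 K) Fin.elim0 = 1 := Finset.prod_empty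
  have hb := m1.2.2.2 Fin.elim0
  have hr := m2 Fin.elim0
  rw [hmon, one_mul] at hb hr
  obtain ⟨a1, a2, a3, -⟩ := (part5a m1.2.1.1 m1.2.2.1 hb hF).2 hr
  exact ⟨a1, a2, a3⟩

end

section
variable {K : Type} [Field K] [NumberField K] [IsCyclotomicExtension {3} ℚ K]

/-- Squarefree and pairwise coprime radicands which are no units. -/
structure Rads {n : ℕ} (a : Fin n → 𝓞 K) : Prop where
  sq : ∀ l, SquarefreePrimeToThree (a l)
  cop : ∀ l m, l ≠ m → IsCoprime (a l) (a m)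
  nu : ∀ l, ¬ IsUnit (a l)

/-- The fields exist. -/
lemma exists_root (n : ℕ) : ∀ a : Fin n → 𝓞 K, Rads a →
    ∃ (F : Type) (_ : Field F) (_ : NumberField F) (_ : Algebra K F), IsRootField a F := by
  induction n with
  | zero =>
    intro a _
    refine ⟨K, inferInstance, inferInstance, inferInstance, ?_⟩
    have e : a = Fin.elim0 := funext fun l => l.elim0
    rw [e]
    exact base_root
  | succ n ih =>
    intro a ha
    obtain ⟨F₀, f1, f2, f3, h⟩ := ih (fun l => a l.succ) ⟨fun l => ha.1 _, fun l m hlm =>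
      ha.2 _ _ fun h => hlm (Fin.succ_injective _ h), fun l => ha.3 _⟩
    have h1 := root_more (a := fun l : Fin n => a l.succ) (fun l => (ha.1 _).1.ne_zero) (D := a 0)
      (fun c y hy => by
        have h2 := (sq_twist (A := 1) (a := fun l : Fin n => a l.succ) PK.one (fun l => (ha.1 _).2)
          (ha.1 0) (ha.3 0) isCoprime_one_left (fun l => ha.2 _ _ (Fin.succ_ne_zero l)) c).1
        apply h2
        refine ⟨1, y, isUnit_one, ?_⟩
        rw [one_mul, one_mul, mul_comm]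
        exact hy) h
    have e : (Fin.cons (a 0) (fun l : Fin n => a l.succ) : Fin (n + 1) → 𝓞 K) = a := by
      funext l
      refine Fin.cases rfl (fun i => rfl) l
    rwa [e] at h1

/-- The curve `E_A` is stable in `F/K` if all the other products are good. -/
lemma stable_base {n : ℕ} {A : 𝓞 K} {a : Fin n → 𝓞 K} (h : Admissible A a)
    (hg : ∀ c, c ≠ 0 → Good (A * monomial a c)) {F : Type} [Field F] [NumberField F] [Algebra K F]
    (hF : IsRootField a F) : Stable A K F := by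
  have e0 : A * Pool.Agent.H462.EX.pw a 0 = A := by rw [Pool.Agent.H462.EX.pw_zero, mul_one]
  have h0 : Admissible A (Fin.elim0 : Fin 0 → 𝓞 K) := by
    refine ⟨h.1, fun l => l.elim0, fun c hc => ?_⟩
    have : monomial (Fin.elim0 : Fin 0 → 𝓞 K) c = 1 := Finset.prod_empty
    rw [this, mul_one] at hc ⊢
    have h1 := h.2.2 0
    have e1 : A * monomial a 0 = A := e0
    rw [e1] at h1
    exact h1 hc
  obtain ⟨-, -, k0, -, -⟩ := part1 h0 (base_root (K := K))
  obtain ⟨hA, ha, hn⟩ := h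
  obtain ⟨hd, θ, hθ, hgen⟩ := hF
  obtain ⟨k1, k2, k3, k4⟩ := Pool.Agent.H462.GX.multi ha hA hd hθ hgen
  obtain ⟨Φ, hΦ⟩ := k4 hn
  refine stable_gen (Φ0 := Φ 0) (G := fun s => ∏ c ∈ Finset.univ.erase (0 : Fin n → Fin 3), Φ c s)
    k0 k1 ?_ (hΦ 0).1 (Differentiable.fun_finsetProd fun c _ => (hΦ c).1) (fun s hs => ?_)
    (fun s hs => ?_) ?_
  · refine k2.trans ?_
    have hz : ∀ c ∈ Finset.univ.erase (0 : Fin n → Fin 3), Module.finrank ℤ
        (Pool.Agent.Y696.CTK.ED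
          ((A * Pool.Agent.H462.EX.pw a c : 𝓞 K) : K)).toAffine.Point = 0 := fun c hc =>
      Pool.Agent.H462.GX.goodG_rank (prime_mul hA ha c) (hg c (Finset.ne_of_mem_erase hc))
    rw [← Finset.add_sum_erase Finset.univ _ (Finset.mem_univ (0 : Fin n → Fin 3)),
      Finset.sum_eq_zero hz, e0]
    rfl
  · have h1 := (hΦ 0).2 s (by simpa using hs)
    rw [e0] at h1
    exact h1
  · have hs' : 3 / 2 < s.re := by simpa using hs
    refine Eq.trans ?_ (k3 s hs').2.symm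
    refine Eq.trans ?_ (Finset.prod_congr rfl fun c _ => (hΦ c).2 s hs')
    exact Finset.mul_prod_erase Finset.univ (fun c => Φ c s) (Finset.mem_univ _)
  · refine Finset.prod_ne_zero_iff.2 fun c hc => ?_
    exact Pool.Agent.H462.GX.goodG_val (prime_mul hA ha c) (hg c (Finset.ne_of_mem_erase hc))
      (hΦ c).1 fun s hs => (hΦ c).2 s (by simpa using hs)

/-- The case of the tower. -/
lemma tower_cv {n : ℕ} {A : 𝓞 K} {a : Fin n → 𝓞 K} (hA : CubeFreePrimeToThree A)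
    (hu : ¬ IsUnit A) (h : Rads a) (hAa : ∀ l, IsCoprime A (a l)) : Cv A a := by
  have hr : Pool.Agent.H462.EX.RadK a := ⟨h.sq, h.cop⟩
  refine ⟨hA, fun l => Pool.Agent.H462.EX.cf_AK (h.sq l), fun c hc => ?_⟩
  have h1 := (Pool.Agent.H462.GX.uc_cf (hr.cfA hA hAa c)).1 hc
  exact hu (isUnit_of_mul_isUnit_left h1)

/-- The step of the infinite tower. -/
lemma tower_step {n : ℕ} {A : 𝓞 K} {a : Fin n → 𝓞 K} (hA : CubeFreePrimeToThree A)
    (hu : ¬ IsUnit A) (hb : ¬ Excluded A) (h : Rads a) (hAa : ∀ l, IsCoprime A (a l))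
    (hae : ∀ l, Excluded (a l)) : ∃ D : 𝓞 K, (SquarefreePrimeToThree D ∧ IsCoprime A D ∧
      ∀ l, IsCoprime (a l) D) ∧ ¬ IsUnit D ∧ Excluded D ∧
      ∀ c, Good (A * monomial a c * D) ∧ Good (A * monomial a c * D ^ 2) := by
  obtain ⟨F, f1, f2, f3, hF⟩ := exists_root n a h
  have hcv := tower_cv hA hu h hAa
  obtain ⟨-, -, -, h4, -⟩ := part3 hcv hF
  have hp := (p_pos K).1
  have h5 := h4 1 PK.one (fun _ => 0) (fun _ => 0)
  have hpos : (0 : ℝ) < 1 / 9 * ∏ _c : Fin n → Fin 3, p 0 * p 0 := by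
    have : (0 : ℝ) < p 0 := by linarith
    positivity
  obtain ⟨X, hX⟩ := ((tendsto_order.1 h5).1 _ hpos).exists
  obtain ⟨D, hD⟩ : ({D ∈ curveAll A a X | (¬ IsUnit D ∧ Excluded (D * 1 ^ 2)) ∧
      ∀ c, Corank (A * monomial a c * D) 0 ∧ Corank (A * monomial a c * D ^ 2) 0}).Nonempty := by
    rw [Set.nonempty_iff_ne_empty]
    intro he
    rw [he, Set.ncard_empty, Nat.cast_zero, zero_div] at hX
    exact lt_irrefl _ hX
  obtain ⟨h6, ⟨h7, h8⟩, h9⟩ := hD
  rw [one_pow, mul_one] at h8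
  have hex : ∀ c, ¬ Excluded (A * monomial a c) := fun c h =>
    hb ((Pool.Agent.H462.EX.bad_mul_pw hae A c).1 h)
  have htw := sq_twist hA.2 (fun l => (h.sq l).2) h6.2.1 h7 h6.2.2.1 h6.2.2.2
  refine ⟨D, h6.2, h7, h8, fun c => ⟨Or.inr ⟨(htw c).1, ?_, (h9 c).1⟩,
    Or.inr ⟨(htw c).2, ?_, (h9 c).2⟩⟩⟩
  · intro h
    apply hex c
    have h1 := (ph_eq_one _).2 h
    rw [ph_mul, (ph_eq_one _).2 h8, mul_one] at h1
    exact (ph_eq_one _).1 h1
  · intro h
    apply hex c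
    have h1 := (ph_eq_one _).2 h
    rw [ph_mul, ph_pow, (ph_eq_one _).2 h8, one_pow, mul_one] at h1
    exact (ph_eq_one _).1 h1

/-- The property of the finite sequences. -/
def Ok (A : 𝓞 K) (n : ℕ) (a : Fin n → 𝓞 K) : Prop :=
  Rads a ∧ (∀ l, IsCoprime A (a l)) ∧ (∀ l, Excluded (a l)) ∧
    ∀ c, c ≠ 0 → Good (A * monomial a c)

lemma ok_step {n : ℕ} {A : 𝓞 K} {a : Fin n → 𝓞 K} (hA : CubeFreePrimeToThree A)
    (hu : ¬ IsUnit A) (hb : ¬ Excluded A) (h : Ok A n a) :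
    ∃ D : 𝓞 K, Ok A (n + 1) (Fin.snoc a D) := by
  obtain ⟨h1, h2, h3, h4⟩ := h
  obtain ⟨D, ⟨d1, d2, d3⟩, d4, d5, d6⟩ := tower_step hA hu hb h1 h2 h3
  have hall : ∀ (P : 𝓞 K → Prop), P D → (∀ l, P (a l)) →
      ∀ l, P ((Fin.snoc a D : Fin (n + 1) → 𝓞 K) l) := by
    intro P e1 e2 l
    refine Fin.lastCases ?_ (fun i => ?_) l
    · rw [Fin.snoc_last]
      exact e1
    · rw [Fin.snoc_castSucc]
      exact e2 i
  refine ⟨D, ⟨hall _ d1 h1.sq, fun l m => ?_, hall (fun x => ¬ IsUnit x) d4 h1.nu⟩,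
    hall _ d2 h2, hall _ d5 h3, fun c hc => ?_⟩
  · refine Fin.lastCases ?_ (fun i => ?_) l
    · refine Fin.lastCases ?_ (fun i => ?_) m
      · intro h
        exact absurd rfl h
      · intro _
        rw [Fin.snoc_last, Fin.snoc_castSucc]
        exact (d3 i).symm
    · refine Fin.lastCases ?_ (fun i' => ?_) m
      · intro _
        rw [Fin.snoc_last, Fin.snoc_castSucc]
        exact d3 i
      · intro h
        rw [Fin.snoc_castSucc, Fin.snoc_castSucc]
        exact h1.cop i i' fun h' => h (by rw [h'])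
  · have e : monomial (Fin.snoc a D : Fin (n + 1) → 𝓞 K) c =
        monomial a (fun l => c l.castSucc) * D ^ (c (Fin.last n) : ℕ) := by
      unfold monomial
      rw [Fin.prod_univ_castSucc]
      simp only [Fin.snoc_castSucc, Fin.snoc_last]
    rw [e, ← mul_assoc]
    obtain ⟨i, hi⟩ : ∃ i, i = c (Fin.last n) := ⟨_, rfl⟩
    rw [← hi]
    have hcases : ∀ i : Fin 3, (i : ℕ) = 0 ∨ (i : ℕ) = 1 ∨ (i : ℕ) = 2 := by decide
    rcases hcases i with h0 | h0 | h0
    · rw [h0, pow_zero, mul_one]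
      refine h4 _ fun hz => hc ?_
      funext l
      refine Fin.lastCases ?_ (fun m => congrFun hz m) l
      rw [← hi]
      exact Fin.ext h0
    · rw [h0, pow_one]
      exact (d6 _).1
    · rw [h0]
      exact (d6 _).2

end

/-- (0) `K` is a root field of the empty family, and if `F₀` is a root field of `a` and no product
`D a^c` is a cube, then there is a root field of the family `D, a`. -/
def FieldsExist (K : Type) [Field K] [NumberField K] : Prop :=
  IsRootField (Fin.elim0 : Fin 0 → 𝓞 K) K ∧ ∀ (n : ℕ) (a : Fin n → 𝓞 K) (D : 𝓞 K),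
    (∀ l, a l ≠ 0) → (∀ (c : Fin n → Fin 3) (y : 𝓞 K), D * monomial a c ≠ y ^ 3) →
    ∀ (F₀ : Type) [Field F₀] [NumberField F₀] [Algebra K F₀], IsRootField a F₀ →
      ∃ (F : Type) (_ : Field F) (_ : NumberField F) (_ : Algebra K F),
        IsRootField (Fin.cons D a : Fin (n + 1) → 𝓞 K) F

section
variable {K : Type} [Field K] [NumberField K]

/-- (1) The curve `E_A` over the field `F = K(∛a₁, …, ∛aₙ)`. -/
def OverField {n : ℕ} (A : 𝓞 K) (a : Fin n → 𝓞 K) (F : Type) [Field F] [NumberField F]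
    [Algebra K F] : Prop :=
  EntireLSeries (curve (algebraMap K F A)) ∧
  (∀ s : ℂ, (3 / 2 : ℝ) < s.re → (curve (algebraMap K F A)).LSeries s =
    ∏ c : Fin n → Fin 3, (curve ((A * monomial a c : 𝓞 K) : K)).LSeries s) ∧
  Module.Finite ℤ (curve (algebraMap K F A)).toAffine.Point ∧
  rank (curve (algebraMap K F A)) =
    ∑ c : Fin n → Fin 3, rank (curve ((A * monomial a c : 𝓞 K) : K)) ∧
  ((∀ c, Good (A * monomial a c)) →
    RankZero (curve (algebraMap K F A)) ∧ RankEquality (curve (algebraMap K F A)))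

/-- (2) The coranks of the products `A a^c D` and `A a^c D²` exist and are unique, and if they are `r c` and
`r' c`, then the rank over `F` is at most the rank over `F₀` plus `2 ∑ (r c + r' c)`, and `E_A` is stable if
the coranks are zero. -/
def OneMoreRoot {n : ℕ} (A : 𝓞 K) (a : Fin n → 𝓞 K) (D : 𝓞 K) (F₀ F : Type) [Field F₀]
    [NumberField F₀] [Algebra K F₀] [Field F] [NumberField F] [Algebra K F] : Prop :=
  (∀ c, (∃! r, Corank (A * monomial a c * D) r) ∧ ∃! r, Corank (A * monomial a c * D ^ 2) r) ∧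
  ∀ r r' : (Fin n → Fin 3) → ℕ,
    (∀ c, Corank (A * monomial a c * D) (r c) ∧ Corank (A * monomial a c * D ^ 2) (r' c)) →
      rank (curve (algebraMap K F A)) ≤
        rank (curve (algebraMap K F₀ A)) + 2 * ∑ c, (r c + r' c) ∧
      ((∀ c, r c = 0 ∧ r' c = 0) → Stable A F₀ F)

/-- (3) The law of the coranks in the class of `(A, a)`, and in each of the nine classes modulo nine: the
class of the `D` such that `D B²` is excluded, where `B` is prime to `3`; (2) applies to the class. -/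
def CurveLaw {n : ℕ} (A : 𝓞 K) (a : Fin n → 𝓞 K) : Prop :=
  (∃ c : ℝ, 0 < c ∧ ∃ X₀ : ℕ, ∀ X : ℕ, X₀ ≤ X → c * X ≤ ((curveAll A a X).ncard : ℝ)) ∧
  Filter.Tendsto (fun X : ℕ => ((curveClass A a X).ncard : ℝ) / ((curveAll A a X).ncard : ℝ))
    Filter.atTop (nhds (curveShare A a)) ∧
  (0 < curveShare A a → ∀ r r' : (Fin n → Fin 3) → ℕ, Filter.Tendsto (fun X : ℕ =>
    (({D ∈ curveClass A a X | ∀ c, Corank (A * monomial a c * D) (r c) ∧
      Corank (A * monomial a c * D ^ 2) (r' c)}.ncard : ℕ) : ℝ) /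
        ((curveClass A a X).ncard : ℝ)) Filter.atTop (nhds (∏ c, p (r c) * p (r' c)))) ∧
  (∀ B : 𝓞 K, PrimeToThree B → ∀ r r' : (Fin n → Fin 3) → ℕ,
    Filter.Tendsto (fun X : ℕ => (({D ∈ curveAll A a X | (¬ IsUnit D ∧ Excluded (D * B ^ 2)) ∧
      ∀ c, Corank (A * monomial a c * D) (r c) ∧
        Corank (A * monomial a c * D ^ 2) (r' c)}.ncard : ℕ) : ℝ) /
          ((curveAll A a X).ncard : ℝ)) Filter.atTop (nhds (1 / 9 * ∏ c, p (r c) * p (r' c)))) ∧
  (∀ X : ℕ, ∀ D ∈ curveClass A a X, InClass A a D)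

/-- (3) The curve `E_A` is stable in `F₀(∛D)/F₀` for the share `curveShare A a * p 0 ^ (2 * 3 ^ n)`, at
least, of all the `D`. -/
def CurveStable {n : ℕ} (A : 𝓞 K) (a : Fin n → 𝓞 K) (F₀ : Type) [Field F₀] [NumberField F₀]
    [Algebra K F₀] : Prop :=
  ∀ ε : ℝ, 0 < ε → ∃ X₀ : ℕ, ∀ X : ℕ, X₀ ≤ X →
    (curveShare A a * p 0 ^ (2 * 3 ^ n) - ε) * ((curveAll A a X).ncard : ℝ) ≤
    (({D ∈ curveAll A a X | ∀ (F : Type) [Field F] [NumberField F] [Algebra K F],
      IsRootField (Fin.cons D a : Fin (n + 1) → 𝓞 K) F → Stable A F₀ F}.ncard : ℕ) : ℝ)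

/-- (4) The law of the coranks in the class of the field, and in each of the nine classes modulo nine. -/
def FieldLaw {n : ℕ} (a : Fin n → 𝓞 K) : Prop :=
  (∃ c : ℝ, 0 < c ∧ ∃ X₀ : ℕ, ∀ X : ℕ, X₀ ≤ X → c * X ≤ ((fieldAll a X).ncard : ℝ)) ∧
  Filter.Tendsto (fun X : ℕ => ((fieldClass a X).ncard : ℝ) / ((fieldAll a X).ncard : ℝ))
    Filter.atTop (nhds (fieldShare a)) ∧
  (0 < fieldShare a → ∀ r : (Fin n → Fin 3) → ℕ, Filter.Tendsto (fun X : ℕ =>
    (({D ∈ fieldClass a X | ∀ c, Corank (monomial a c * D) (r c)}.ncard : ℕ) : ℝ) /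
      ((fieldClass a X).ncard : ℝ)) Filter.atTop (nhds (∏ c, p (r c)))) ∧
  (∀ B : 𝓞 K, PrimeToThree B → ∀ r : (Fin n → Fin 3) → ℕ,
    Filter.Tendsto (fun X : ℕ => (({D ∈ fieldAll a X | (¬ IsUnit D ∧ Excluded (D * B ^ 2)) ∧
      ∀ c, Corank (monomial a c * D) (r c)}.ncard : ℕ) : ℝ) / ((fieldAll a X).ncard : ℝ))
        Filter.atTop (nhds (1 / 9 * ∏ c, p (r c))))

/-- (4) The curves `E_D` over `F₀`, and the curve `E_1` over `F₀(∛D)`, for `D` in the class. -/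
def FieldCurves {n : ℕ} (a : Fin n → 𝓞 K) (F₀ : Type) [Field F₀] [NumberField F₀] [Algebra K F₀]
    (D : 𝓞 K) : Prop :=
  (∀ c, ∃! r, Corank (monomial a c * D) r) ∧
  ∀ r : (Fin n → Fin 3) → ℕ, (∀ c, Corank (monomial a c * D) (r c)) →
    Module.Finite ℤ (curve (algebraMap K F₀ D)).toAffine.Point ∧
    rank (curve (algebraMap K F₀ D)) ≤ 2 * ∑ c, r c ∧
    ((∀ c, r c = 0) →
      RankZero (curve (algebraMap K F₀ D)) ∧ RankEquality (curve (algebraMap K F₀ D))) ∧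
    (Admissible (1 : 𝓞 K) a → ∀ (F : Type) [Field F] [NumberField F] [Algebra K F],
      IsRootField (Fin.cons D a : Fin (n + 1) → 𝓞 K) F →
        rank (curve (algebraMap K F (1 : 𝓞 K))) ≤
          rank (curve (algebraMap K F₀ (1 : 𝓞 K))) + 4 * ∑ c, r c ∧
        ((∀ c, r c = 0) → Stable (1 : 𝓞 K) F₀ F))

/-- (4) For the share `fieldShare a * p 0 ^ (3 ^ n)`, at least, of all the `D` the group `E_D(F₀)` is finite,
`L(E_D/F₀, 1) ≠ 0`, Q1 holds for `E_D/F₀`, and `E_1` is stable in `F₀(∛D)/F₀` if `(1, a)` is admissible. -/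
def FieldStable {n : ℕ} (a : Fin n → 𝓞 K) (F₀ : Type) [Field F₀] [NumberField F₀]
    [Algebra K F₀] : Prop :=
  ∀ ε : ℝ, 0 < ε → ∃ X₀ : ℕ, ∀ X : ℕ, X₀ ≤ X →
    (fieldShare a * p 0 ^ (3 ^ n) - ε) * ((fieldAll a X).ncard : ℝ) ≤
    (({D ∈ fieldAll a X | RankZero (curve (algebraMap K F₀ D)) ∧
      RankEquality (curve (algebraMap K F₀ D)) ∧
      (Admissible (1 : 𝓞 K) a → ∀ (F : Type) [Field F] [NumberField F] [Algebra K F],
        IsRootField (Fin.cons D a : Fin (n + 1) → 𝓞 K) F → Stable (1 : 𝓞 K) F₀ F)}.ncard : ℕ) : ℝ)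

/-- (8) There is an infinite tower `K ⊂ K(∛a₀) ⊂ K(∛a₀, ∛a₁) ⊂ …` of fields of degree `3 ^ n` such that
`E_A` is stable in all its fields. -/
def StableTower (A : 𝓞 K) : Prop :=
  ∃ a : ℕ → 𝓞 K, (∀ l, SquarefreePrimeToThree (a l) ∧ IsCoprime A (a l)) ∧ ∀ n : ℕ,
    (∃ (F : Type) (_ : Field F) (_ : NumberField F) (_ : Algebra K F),
      IsRootField (fun l : Fin n => a l) F) ∧
    ∀ (F : Type) [Field F] [NumberField F] [Algebra K F],
      IsRootField (fun l : Fin n => a l) F → Stable A K F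

/-- (5) The curve `E_1` over the field `F = K(∛D)`. -/
def OneCurve (D : 𝓞 K) (F : Type) [Field F] [NumberField F] : Prop :=
  (∀ r, Corank D r → rank (curve (1 : F)) ≤ 4 * r) ∧
  (Corank D 0 → RankZero (curve (1 : F)) ∧ RankEquality (curve (1 : F)) ∧
    ShaThree (curve (1 : F)) ∧ ((3 : 𝓞 K) ∣ D - 1 → D ≠ -2 →
      Nat.card (curve (1 : F)).toAffine.Point = 9))

end

/-- (5) The share of the fields `K(∛D)` over which the theorem is proved for `E_1`. -/
def OneShare (K : Type) [Field K] [NumberField K] : Prop :=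
  ∃ X₀ : ℕ, ∀ X : ℕ, X₀ ≤ X →
    0.568 * ((fieldAll (Fin.elim0 : Fin 0 → 𝓞 K) X).ncard : ℝ) ≤
    (({D ∈ fieldAll (Fin.elim0 : Fin 0 → 𝓞 K) X |
      ∀ (F : Type) [Field F] [NumberField F] [Algebra K F], IsRootField ![D] F →
        RankZero (curve (1 : F)) ∧ RankEquality (curve (1 : F)) ∧
          ShaThree (curve (1 : F))}.ncard : ℕ) : ℝ)

/-- (6) The shares of the classes, if all the radicands are excluded. -/
def Shares (K : Type) [Field K] [NumberField K] : Prop :=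
  ∀ (n : ℕ) (a : Fin n → 𝓞 K), (∀ l, Excluded (a l)) → fieldShare a = 8 / 9 ∧
    ∀ A : 𝓞 K, curveShare A a = if Excluded A then 8 / 9 else 7 / 9

/-- (7) The averages of `3 ^ (rank / 4)` and of the rank of `E_1` over the fields `K(∛D)`, where `D` is `1`
modulo `3` and `N D` is not `1` modulo `9`. -/
def Averages (K : Type) [Field K] [NumberField K] : Prop :=
  (∀ ε : ℝ, 0 < ε → ∃ X₀ : ℕ, ∀ X : ℕ, X₀ ≤ X →
    ∀ (F : 𝓞 K → Type) [∀ D, Field (F D)] [∀ D, NumberField (F D)] [∀ D, Algebra K (F D)],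
      (∀ Y, ∀ D ∈ primary K Y, IsRootField ![D] (F D)) →
      ∑ᶠ D ∈ primary K X, (3 : ℝ) ^ ((rank (curve (1 : F D)) : ℝ) / 4) ≤
        (2 + ε) * ((primary K X).ncard : ℝ)) ∧
  ∃ X₀ : ℕ, ∀ X : ℕ, X₀ ≤ X →
    ∀ (F : 𝓞 K → Type) [∀ D, Field (F D)] [∀ D, NumberField (F D)] [∀ D, Algebra K (F D)],
      (∀ Y, ∀ D ∈ primary K Y, IsRootField ![D] (F D)) →
      ∑ᶠ D ∈ primary K X, (rank (curve (1 : F D)) : ℝ) ≤ 1.618 * ((primary K X).ncard : ℝ)

/-- **Main theorem.** -/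
theorem result (K : Type) [Field K] [NumberField K] [IsCyclotomicExtension {3} ℚ K] :
    FieldsExist K ∧
    -- (1) one curve over one field
    (∀ (n : ℕ) (A : 𝓞 K) (a : Fin n → 𝓞 K), Admissible A a →
      ∀ (F : Type) [Field F] [NumberField F] [Algebra K F], IsRootField a F → OverField A a F) ∧
    -- (2) one more cube root
    (∀ (n : ℕ) (A : 𝓞 K) (a : Fin n → 𝓞 K) (D : 𝓞 K), Admissible A a → InClass A a D →
      ∀ (F₀ F : Type) [Field F₀] [NumberField F₀] [Algebra K F₀] [Field F] [NumberField F]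
        [Algebra K F], IsRootField a F₀ → IsRootField (Fin.cons D a : Fin (n + 1) → 𝓞 K) F →
          OneMoreRoot A a D F₀ F) ∧
    -- (3) a fixed curve, a fixed field `F₀`, and all the fields `F₀(∛D)`
    (∀ (n : ℕ) (A : 𝓞 K) (a : Fin n → 𝓞 K), CubeFreePrimeToThree A →
      (∀ l, CubeFreePrimeToThree (a l)) → (∀ c, ¬ UnitTimesCube (A * monomial a c)) →
      ∀ (F₀ : Type) [Field F₀] [NumberField F₀] [Algebra K F₀], IsRootField a F₀ →
        CurveLaw A a ∧ CurveStable A a F₀) ∧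
    -- (4) a fixed field `F₀`, all the curves `E_D`, and all the fields `F₀(∛D)`
    (∀ (n : ℕ) (a : Fin n → 𝓞 K), (∀ l, CubeFreePrimeToThree (a l)) →
      ∀ (F₀ : Type) [Field F₀] [NumberField F₀] [Algebra K F₀], IsRootField a F₀ →
        FieldLaw a ∧ (∀ X : ℕ, ∀ D ∈ fieldClass a X, FieldCurves a F₀ D) ∧ FieldStable a F₀) ∧
    -- (5) the curve `E_1` over the fields `K(∛D)`
    (∀ D : 𝓞 K, SquarefreePrimeToThree D → ¬ IsUnit D → ¬ Excluded D →
      ∀ (F : Type) [Field F] [NumberField F] [Algebra K F], IsRootField ![D] F → OneCurve D F) ∧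
    OneShare K ∧
    -- (6) the shares and the numbers `p r`
    Shares K ∧ (0.639 < p 0 ∧ p 0 < 0.6391 ∧ HasSum p 1) ∧
    (∀ r : ℕ, 1 - 1.5 / 3 ^ ((r + 1) * (r + 2) / 2) ≤ ∑ s ∈ Finset.range (r + 1), p s) ∧
    -- (7) the averages for `E_1`
    Averages K ∧
    -- (8) the infinite towers
    (∀ A : 𝓞 K, CubeFreePrimeToThree A → ¬ IsUnit A → ¬ Excluded A → StableTower A) := by
  have hT : ∀ (F : 𝓞 K → Type) [∀ D, Field (F D)] [∀ D, NumberField (F D)]
      [∀ D, Algebra K (F D)], (∀ Y, ∀ D ∈ primary K Y, IsRootField ![D] (F D)) →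
      ∀ D r, Pool.Agent.Y696.CTK.ClsK D → Pool.Agent.H462.T1.Cork D r →
        rank (curve (1 : F D)) ≤ 4 * r := by
    intro F _ _ _ hF D r hD hr
    obtain ⟨hd, θ, hθ, -⟩ := hF (Algebra.norm ℤ D).toNat D ⟨Int.self_le_toNat _, hD⟩
    rw [pow_one] at hd
    exact (Pool.Agent.H462.T1.one hD hd (hθ 0)).2.2.1 r hr
  refine ⟨⟨base_root, fun n a D ha hD F₀ _ _ _ hF₀ => root_more ha hD hF₀⟩,
    fun n A a h F _ _ _ hF => part1 h hF,
    fun n A a D h hD F₀ F _ _ _ _ _ _ hF₀ hF => ⟨coranks h hD, fun r r' hr =>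
      part2 h hD hF₀ hF hr⟩,
    fun n A a hA ha hu F₀ _ _ _ hF₀ => ?_, fun n a ha F₀ _ _ _ hF₀ => ?_,
    fun D hD hu hb F _ _ _ hF => part5a hD hu hb hF, part5, fun n a ha => ⟨?_, fun A => ?_⟩,
    p_pos K, fun r => ?_, ⟨fun ε hε => ?_, ?_⟩, fun A hA hu hb => ?_⟩
  · have h : Cv A a := ⟨hA, ha, hu⟩
    obtain ⟨h1, h2, h3, h3', h4⟩ := part3 h hF₀
    exact ⟨⟨h1, h2, h3, h3', fun X D hD => h.cls hD⟩, h4⟩
  · obtain ⟨h1, h2, h3, h3', h4⟩ := part4 ha hF₀
    have ha3 : ∀ l, PrimeToThree (a l) := fun l => (ha l).2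
    refine ⟨⟨h1, h2, h3, h3'⟩, fun X D hD => ⟨fun c => ?_, fun r hr => part4a ha3 hF₀ hD hr⟩, h4⟩
    obtain ⟨hadm, hnu⟩ := adm_field ha3 hD
    have h7 : ∃! r, Corank (D * monomial a c) r :=
      Pool.Agent.H462.GX.exu (prime_mul hadm.1 ha3 c) (hnu c)
    rw [mul_comm] at h7
    exact h7
  · have hc : count a = 3 ^ n := Pool.Agent.H462.EX.cnt_bad ha
    have h3 : (3 : ℝ) ^ n ≠ 0 := by positivity
    unfold fieldShare
    rw [hc]
    push_cast
    field_simp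
    norm_num
  · have hc : count a = 3 ^ n := Pool.Agent.H462.EX.cnt_bad ha
    have h3 : (3 : ℝ) ^ n ≠ 0 := by positivity
    have h4 : (∃ c, Excluded (A * monomial a c)) ↔ Excluded A := by
      constructor
      · rintro ⟨c, h⟩
        exact (Pool.Agent.H462.EX.bad_mul_pw ha A c).1 h
      · intro h
        exact ⟨0, (Pool.Agent.H462.EX.bad_mul_pw ha A 0).2 h⟩
    unfold curveShare
    rw [hc]
    by_cases hA : Excluded A
    · rw [if_pos (h4.2 hA), if_pos hA]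
      push_cast
      field_simp
      norm_num
    · rw [if_neg (fun h => hA (h4.1 h)), if_neg hA]
      push_cast
      field_simp
      norm_num
  · have h7 : 1 - ∑ s ∈ Finset.range (r + 1), p s ≤ 1.5 / 3 ^ ((r + 1) * (r + 2) / 2) :=
      Pool.Agent.XL6.tail_le r
    linarith
  · obtain ⟨X₀, k⟩ := Pool.Agent.H462.T1.avg_three K ε hε
    refine ⟨X₀, fun X hX F _ _ _ hF => k X hX (fun D => (3 : ℝ) ^ ((rank (curve (1 : F D)) : ℝ) / 4))
      fun D r hD hr => ?_⟩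
    have e1 := hT F hF D r hD hr
    have e2 : (rank (curve (1 : F D)) : ℝ) / 4 ≤ (r : ℝ) := by
      have : (rank (curve (1 : F D)) : ℝ) ≤ ((4 * r : ℕ) : ℝ) := by exact_mod_cast e1
      push_cast at this
      linarith
    calc (3 : ℝ) ^ ((rank (curve (1 : F D)) : ℝ) / 4) ≤ (3 : ℝ) ^ (r : ℝ) :=
          Real.rpow_le_rpow_of_exponent_le (by norm_num) e2
      _ = 3 ^ r := Real.rpow_natCast _ _
  · obtain ⟨X₀, k⟩ := Pool.Agent.H462.T1.avg_rank K
    exact ⟨X₀, fun X hX F _ _ _ hF => k X hX (fun D => rank (curve (1 : F D)))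
      fun D r hD hr => hT F hF D r hD hr⟩
  · obtain ⟨a, ha⟩ := Pool.Agent.H462.EX.seq_of (Ok A)
      ⟨⟨fun l => l.elim0, fun l => l.elim0, fun l => l.elim0⟩, fun l => l.elim0, fun l => l.elim0,
        fun c hc => absurd (Subsingleton.elim c 0) hc⟩ fun n a h => ok_step hA hu hb h
    exact ⟨a, fun l => ⟨(ha (l + 1)).1.sq (Fin.last l), (ha (l + 1)).2.1 (Fin.last l)⟩,
      fun n => ⟨exists_root n _ (ha n).1, fun F _ _ _ hF =>
        stable_base (tower_cv hA hu (ha n).1 (ha n).2.1).adm (ha n).2.2.2 hF⟩⟩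

end Pool.Agent.Results.MP_cd906c_nt.CubicKummerExtensions
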