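import Pool.Agent.H462.JL.Res
import Pool.Agent.H428.AX.Law

/-!
# The rank conjecture for simultaneous cubic twists over `ℚ(√-3)`

`K = ℚ(√-3)` is the field of third roots of unity, `E_B` is the curve `y² + B y = x³` over `K`, and
`A_1, …, A_m` are elements of `𝓞 K` which are cube-free and prime to `3` and whose quotients are no cubes
in `K`, so that `E_{A_1}, …, E_{A_m}` are pairwise not isomorphic.  `D` runs through ALL the cube-free
elements of `𝓞 K` which are prime to `3` and to the `A_i`, ordered by the norm (`allCubeFree`).  The theorem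
is about the `m` simultaneous cubic twists `E_{A_1 D}, …, E_{A_m D}`.  The case `m = 1`, `A_1 = 1` is the
family of ALL the curves `E_B`, `B` prime to `3` (every element of `K` is a cube times a cube-free element of
`𝓞 K`).  The same is proved for the subfamily of the squarefree `D` (`all`); there are at least `c X` such
`D` of norm at most `X`.

Every `B` which is cube-free and prime to `3` is `± ω ^ k ∏ π_i ^ e_i` with different primes `π_i ≡ 1`
modulo `3`, `e_i = 1, 2` and a unique `k` modulo `3`.  `B` is excluded if `B ≡ ± 1` modulo `3` and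
`N B ≡ 1` modulo `9`, and `Good` if it is not excluded and not a unit.  All the `A_i D` are good for a share
of `(9 - n) / 9` of all the `D`, where `n ≤ m` is the number of the different pairs
`(± A_i mod 3, N A_i mod 9)`; `InClass` is the class of the squarefree `D` for which no `A_i D` is excluded.

The corank `r` of `B` is defined by the cubic residue symbols `χ_{ji} = (π_i / π_j)_3` and
`q_j = (N π_j - 1) / 3` (so that `(ω / π_j)_3 = q_j`): the system
`∑_i e_i χ_{ji} (v_i - v_j) = k q_j v_j` over the field with three elements has `3 ^ r` solutions if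
`k ≠ 0` and `3 ^ (r + 1)` solutions if `k = 0`.

* For EVERY good `B`, `L(E_B/K, s)` is entire, `E_B(K)` is finitely generated and its rank is at most
  `2 r`, where `r` is the corank of `B`. If `r = 0` then `L(E_B/K, 1) ≠ 0`, `E_B(K)` is finite, its
  `3`-part has order `3`, the `3`-primary part of `Ш(E_B/K)` is trivial, and the equality of Q1 holds for
  `E_B/K`.
* The coranks of `A_1 D, …, A_m D` are independent: the share of the `D` for which all the `A_i D` are good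
  and have the coranks `r_1, …, r_m` is exactly `(9 - n) / 9 * p_{r_1} ⋯ p_{r_m}`, where
  `p_r = ∏_{i ≥ 0} (1 - 3^{-(2 i + 1)}) / ((3 - 1) (9 - 1) ⋯ (3 ^ r - 1))`.  For the squarefree `D` the law
  `p_{r_1} ⋯ p_{r_m}` holds in the class and in each of the `18` classes of the `D` which are given by `D`
  modulo `3` and `N D` modulo `9` (each has the share `1/18`).
* So Q1 holds, with both sides equal to zero, simultaneously for `E_{A_1 D}, …, E_{A_m D}` for a share of
  at least `(9 - n) / 9 * p_0 ^ m` of all the `D`. For `m = 1` this is more than `56.8 %` of all the `D`.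

The case `m = 1`, `A_1 = 1`, `k = 0` (`1/3` of all the `D`, two thirds of them in the class) is known to
the library.  New are: the case `k ≠ 0`, where the curve has additional ramification at the prime above
three and the unit `ω` is an additional vertex of the graph of the residue symbols (`CTU`); the
equidistribution modulo nine; and the joint law (`JL`): the `m` symmetric matrices of the symbols have the
same random part and differ only by diagonal matrices and by the rows of the primes of the `A_i`, and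
their kernels are shown to be independent.  The passage from the squarefree to the cube-free `D = c² D'`
is in `H428/AX` (helper428): for each fixed squarefree `c ≡ 1` modulo `3` the law of the squarefree `D'` is
applied to the `A_i c²`, and the `c` of large norm contribute at most a constant times `∑ X / N(c)²`.
-/

set_option autoImplicit false
set_option linter.unusedSectionVars false

namespace Pool.Agent.Results.MP_cd906c_nt.CubicTwistsAllClasses

open NumberField
open Pool.Agent.TH841.NF.D (Sha)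
open scoped Classical

/-- The curve `E_B : y² + B y = x³`. -/
def curve {K : Type} [Field K] (B : K) : WeierstrassCurve K := ⟨0, 0, B, 0, 0⟩

/-- The rank of `W(K)`. -/
noncomputable def rank {K : Type} [Field K] (W : WeierstrassCurve K) : ℕ :=
  Module.finrank ℤ W.toAffine.Point

section
variable {K : Type} [Field K] [NumberField K]

/-- `L(W/K, s)` converges absolutely for `Re s > 3/2` and has an analytic continuation to the whole
plane. -/
def EntireLSeries (W : WeierstrassCurve K) : Prop :=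
  ∃ Φ : ℂ → ℂ, Differentiable ℂ Φ ∧ ∀ s : ℂ, (3 / 2 : ℝ) < s.re →
    LSeriesSummable ((fun n : ℤ => (n : ℂ)) ∘ W.LFunction) s ∧ Φ s = W.LSeries s

/-- `W(K)` is finite and the value of the entire function `L(W/K, s)` at `1` is not zero. -/
def RankZero (W : WeierstrassCurve K) : Prop :=
  Finite W.toAffine.Point ∧
  ∃ Φ : ℂ → ℂ, Differentiable ℂ Φ ∧ (∀ s : ℂ, (3 / 2 : ℝ) < s.re → Φ s = W.LSeries s) ∧
    Φ 1 ≠ 0

/-- The assertion of Q1 for `W/K`: if `Φ` is a continuation of `L(W/K, s)` to the whole plane, then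
the order of vanishing of `Φ` at `1` is the rank of `W(K)`. -/
def RankEquality (W : WeierstrassCurve K) : Prop :=
  ∀ Φ : ℂ → ℂ, Differentiable ℂ Φ → (∀ s : ℂ, (3 / 2 : ℝ) < s.re → Φ s = W.LSeries s) →
    analyticOrderAt Φ 1 = (rank W : ℕ∞)

/-- The `3`-part of `W(K)` has order `3` and the `3`-primary part of the Tate-Shafarevich group of `W/K`
is trivial. -/
def ThreeParts (W : WeierstrassCurve K) : Prop :=
  padicValNat 3 (Nat.card W.toAffine.Point) = 1 ∧
  ∀ (n : ℕ) (x : Sha W), 3 ^ n • x = 0 → x = 0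

/-- `B` is cube-free and prime to `3`. -/
def CubeFreePrimeToThree (B : 𝓞 K) : Prop :=
  (∀ π : 𝓞 K, Prime π → ¬ π ^ 3 ∣ B) ∧ ¬ (3 : ℤ) ∣ Algebra.norm ℤ B

/-- `B` is `± 1` modulo `3` and its norm is `1` modulo `9`. -/
def Excluded (B : 𝓞 K) : Prop := (3 : 𝓞 K) ∣ B ^ 2 - 1 ∧ (9 : ℤ) ∣ Algebra.norm ℤ B - 1

/-- `D` is squarefree and prime to `3` and to the `A i`. -/
def Admissible {m : ℕ} (A : Fin m → 𝓞 K) (D : 𝓞 K) : Prop :=
  (Squarefree D ∧ ¬ (3 : ℤ) ∣ Algebra.norm ℤ D) ∧ ∀ i, IsCoprime (A i) D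

/-- `B` is cube-free and prime to `3`, not a unit, and not excluded. -/
def Good (B : 𝓞 K) : Prop := CubeFreePrimeToThree B ∧ ¬ IsUnit B ∧ ¬ Excluded B

/-- `D` is not a unit and no `A i * D` is excluded. -/
def InClass {m : ℕ} (A : Fin m → 𝓞 K) (D : 𝓞 K) : Prop :=
  ¬ IsUnit D ∧ ∀ i, ¬ Excluded (A i * D)

/-- The number of the different pairs `(A i ^ 2 mod 3, N (A i) mod 9)`. -/
noncomputable def classes {m : ℕ} (A : Fin m → 𝓞 K) : ℕ :=
  (Set.range fun i => (Ideal.Quotient.mk (Ideal.span {(3 : 𝓞 K)}) (A i ^ 2),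
    ((Algebra.norm ℤ (A i) : ℤ) : ZMod 9))).ncard

/-- `B` is the product of `± ω ^ k` and of the powers `π i ^ e i` of different primes `π i`, which are
`1` modulo `3`, and the cubic residue symbol of `π i` modulo `π j` is `ω ^ χ j i`. -/
def IsFactorization (ω B : 𝓞 K) (k : ZMod 3) (n : ℕ) (π : Fin n → 𝓞 K) (e : Fin n → ZMod 3)
    (χ : Fin n → Fin n → ZMod 3) : Prop :=
  (∀ i, Prime (π i) ∧ (3 : 𝓞 K) ∣ π i - 1 ∧ e i ≠ 0) ∧ Function.Injective π ∧
  (B = ω ^ k.val * ∏ i, π i ^ (e i).val ∨ B = -(ω ^ k.val * ∏ i, π i ^ (e i).val)) ∧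
  ∀ i j, i ≠ j →
    π j ∣ π i ^ (((Algebra.norm ℤ (π j)).natAbs - 1) / 3) - ω ^ (χ j i).val

/-- The number of the solutions of the system `∑_i e_i χ_{ji} (v_i - v_j) = k q_j v_j`, where
`q_j = (N π_j - 1) / 3`, over the field with three elements. -/
noncomputable def solutions (k : ZMod 3) {n : ℕ} (π : Fin n → 𝓞 K) (e : Fin n → ZMod 3)
    (χ : Fin n → Fin n → ZMod 3) : ℕ :=
  Nat.card {v : Fin n → ZMod 3 // ∀ j, ∑ i, e i * χ j i * (v i - v j) =
    k * (((Algebra.norm ℤ (π j) - 1) / 3 : ℤ) : ZMod 3) * v j}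

/-- `B` has the corank `r`. -/
def Corank (B : 𝓞 K) (r : ℕ) : Prop :=
  ∃ (ω : 𝓞 K) (k : ZMod 3) (n : ℕ) (π : Fin n → 𝓞 K) (e : Fin n → ZMod 3)
    (χ : Fin n → Fin n → ZMod 3),
    ω ^ 2 + ω + 1 = 0 ∧ IsFactorization ω B k n π e χ ∧
      solutions k π e χ = if k = 0 then 3 ^ (r + 1) else 3 ^ r

/-- The admissible `D` of norm at most `X`. -/
def all {m : ℕ} (A : Fin m → 𝓞 K) (X : ℕ) : Set (𝓞 K) :=
  {D : 𝓞 K | Algebra.norm ℤ D ≤ X ∧ Admissible A D}

/-- ALL the cube-free `D` of norm at most `X` which are prime to `3` and to the `A i`. -/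
def allCubeFree {m : ℕ} (A : Fin m → 𝓞 K) (X : ℕ) : Set (𝓞 K) :=
  {D : 𝓞 K | Algebra.norm ℤ D ≤ X ∧ CubeFreePrimeToThree D ∧ ∀ i, IsCoprime (A i) D}

/-- The admissible `D` of the class of norm at most `X`. -/
def upTo {m : ℕ} (A : Fin m → 𝓞 K) (X : ℕ) : Set (𝓞 K) :=
  {D : 𝓞 K | Algebra.norm ℤ D ≤ X ∧ Admissible A D ∧ InClass A D}

/-- The admissible `D` of norm at most `X` with `D ≡ u` modulo `3` and `N D ≡ 1 + 3 t` modulo `9`. -/
def residue {m : ℕ} (A : Fin m → 𝓞 K) (u : 𝓞 K) (t : ℤ) (X : ℕ) : Set (𝓞 K) :=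
  {D ∈ all A X | (3 : 𝓞 K) ∣ D - u ∧ (9 : ℤ) ∣ Algebra.norm ℤ D - 1 - 3 * t}

/-- The elements `D` of the set `U` such that, for all `i`, `E_{A_i D}(K)` is finite,
`L(E_{A_i D}/K, 1) ≠ 0`, the equality of Q1 holds, and the `3`-part of `E_{A_i D}(K)` and the `3`-primary
part of `Ш(E_{A_i D}/K)` are as small as possible. -/
def solved {m : ℕ} (A : Fin m → 𝓞 K) (U : Set (𝓞 K)) : Set (𝓞 K) :=
  {D ∈ U | ∀ i, RankZero (curve ((A i * D : 𝓞 K) : K)) ∧
    RankEquality (curve ((A i * D : 𝓞 K) : K)) ∧ ThreeParts (curve ((A i * D : 𝓞 K) : K))}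

/-- The `D` of the class of norm at most `X` such that, for all `i`, `E_{A_i D}(K)` is finitely generated
of rank at most `n i`. -/
def rankLe {m : ℕ} (A : Fin m → 𝓞 K) (X : ℕ) (n : Fin m → ℕ) : Set (𝓞 K) :=
  {D ∈ upTo A X | ∀ i, Module.Finite ℤ (curve ((A i * D : 𝓞 K) : K)).toAffine.Point ∧
    rank (curve ((A i * D : 𝓞 K) : K)) ≤ n i}

end

/-- `p_r = ∏_{i ≥ 0} (1 - 3^{-(2 i + 1)}) / ((3 - 1) (9 - 1) ⋯ (3 ^ r - 1))`. -/
noncomputable def p (r : ℕ) : ℝ :=
  (∏' i : ℕ, (1 - (1 / 3 : ℝ) ^ (2 * i + 1))) / ∏ i ∈ Finset.range r, ((3 : ℝ) ^ (i + 1) - 1)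

lemma rank_eq_zero {A : Type} [AddCommGroup A] [Finite A] : Module.finrank ℤ A = 0 := by
  rw [Module.finrank_eq_zero_iff_isTorsion]
  intro x
  refine ⟨⟨(addOrderOf x : ℤ), ?_⟩, ?_⟩
  · rw [mem_nonZeroDivisors_iff_ne_zero]
    exact_mod_cast (addOrderOf_pos x).ne'
  · show ((addOrderOf x : ℕ) : ℤ) • x = 0
    rw [natCast_zsmul, addOrderOf_nsmul_eq_zero]

lemma RankZero.equality {K : Type} [Field K] [NumberField K] {W : WeierstrassCurve K}
    (h : RankZero W) : RankEquality W := by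
  obtain ⟨hfin, Φ, hΦ, hL, hne⟩ := h
  intro Ψ hΨ hΨL
  have hopen : IsOpen {s : ℂ | (3 / 2 : ℝ) < s.re} := isOpen_lt continuous_const Complex.continuous_re
  have h2 : (2 : ℂ) ∈ {s : ℂ | (3 / 2 : ℝ) < s.re} := by
    show (3 / 2 : ℝ) < (2 : ℂ).re
    norm_num
  have heq : Ψ = Φ := by
    refine AnalyticOnNhd.eq_of_eventuallyEq (z₀ := 2) (fun s _ => hΨ.analyticAt s)
      (fun s _ => hΦ.analyticAt s) ?_
    filter_upwards [hopen.mem_nhds h2] with s hs
    rw [hΨL s hs, hL s hs]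
  unfold rank
  rw [rank_eq_zero, heq, (hΦ.analyticAt 1).analyticOrderAt_eq_zero.2 hne]
  rfl

lemma eventually_share {n m : ℕ → ℕ} {L : ℝ}
    (h : Filter.Tendsto (fun X : ℕ => (n X : ℝ) / (m X : ℝ)) Filter.atTop (nhds L)) (ε : ℝ)
    (hε : 0 < ε) : ∃ X₀ : ℕ, ∀ X : ℕ, X₀ ≤ X → (L - ε) * (m X : ℝ) ≤ (n X : ℝ) := by
  obtain ⟨X₀, h1⟩ := Filter.eventually_atTop.1 ((tendsto_order.1 h).1 (L - ε) (by linarith))
  refine ⟨X₀, fun X hX => ?_⟩
  have h2 := h1 X hX
  rcases Nat.eq_zero_or_pos (m X) with h0 | h0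
  · rw [h0, Nat.cast_zero, mul_zero]
    exact Nat.cast_nonneg _
  · rw [lt_div_iff₀ (by exact_mod_cast h0)] at h2
    exact h2.le

lemma ncard_biUnion {α ι : Type} (s : Finset ι) (f : ι → Set α) (hf : ∀ i, (f i).Finite)
    (hd : ∀ i j, i ≠ j → Disjoint (f i) (f j)) :
    (⋃ i ∈ s, f i).ncard = ∑ i ∈ s, (f i).ncard := by
  induction s using Finset.induction_on with
  | empty => simp
  | insert a s ha ih =>
    have hfin : (⋃ i ∈ s, f i).Finite := Set.Finite.biUnion s.finite_toSet fun i _ => hf i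
    rw [Finset.sum_insert ha, ← ih, Finset.set_biUnion_insert, Set.ncard_union_eq ?_ (hf a) hfin]
    rw [Set.disjoint_iUnion₂_right]
    intro i hi
    exact hd a i fun h => ha (h ▸ hi)

section
variable {K : Type} [Field K] [NumberField K] [IsCyclotomicExtension {3} ℚ K] {m : ℕ}
  {A : Fin m → 𝓞 K}

omit [IsCyclotomicExtension {3} ℚ K] in
lemma mul_good {A D : 𝓞 K} (hA : CubeFreePrimeToThree A) (hD : CubeFreePrimeToThree D)
    (h : IsCoprime A D) : CubeFreePrimeToThree (A * D) := by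
  refine ⟨fun π hπ hd => ?_, fun h3 => ?_⟩
  · by_cases h1 : π ∣ D
    · have h2 : ¬ π ∣ A := fun h3 => hπ.not_isUnit (h.isUnit_of_dvd' h3 h1)
      exact hD.1 π hπ (hπ.pow_dvd_of_dvd_mul_left 3 h2 hd)
    · exact hA.1 π hπ (hπ.pow_dvd_of_dvd_mul_right 3 h1 hd)
  · rw [map_mul] at h3
    rcases Int.prime_three.dvd_or_dvd h3 with h4 | h4
    · exact hA.2 h4
    · exact hD.2 h4

omit [IsCyclotomicExtension {3} ℚ K] in
lemma Admissible.cubeFree {D : 𝓞 K} (hD : Admissible A D) : CubeFreePrimeToThree D := by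
  refine ⟨fun π hπ hd => ?_, hD.1.2⟩
  have h3 : π * π ∣ D := (Dvd.intro π (by ring)).trans hd
  exact hπ.not_isUnit (hD.1.1 π h3)

omit [IsCyclotomicExtension {3} ℚ K] in
lemma good_of (hA : ∀ i, CubeFreePrimeToThree (A i)) {D : 𝓞 K} (hD : Admissible A D)
    (hC : InClass A D) (i : Fin m) : Good (A i * D) :=
  ⟨mul_good (hA i) hD.cubeFree (hD.2 i),
    fun h => hC.1 (isUnit_of_dvd_unit (dvd_mul_left _ _) h), hC.2 i⟩

theorem each {B : 𝓞 K} (hB : Good B) : (∃! r, Corank B r) ∧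
    EntireLSeries (curve (B : K)) ∧ Module.Finite ℤ (curve (B : K)).toAffine.Point ∧
    (∀ r, Corank B r → rank (curve (B : K)) ≤ 2 * r) ∧
    (Corank B 0 → RankZero (curve (B : K)) ∧
      RankEquality (curve (B : K)) ∧ ThreeParts (curve (B : K))) := by
  obtain ⟨⟨j, hj⟩, -⟩ := Pool.Agent.Y455.CTK.jex K
  obtain ⟨z, rfl⟩ := j.surjective B
  have hz : Pool.Agent.H462.JL.Cf3 z := (Pool.Agent.H462.JL.CfK_iff j hj z).1 hB.1
  have hu : ¬ IsUnit z := fun h => hB.2.1 (h.map j)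
  have hb : ¬ Pool.Agent.H462.JL.bad z := fun h => hB.2.2 ((Pool.Agent.H462.JL.badK_iff j hj z).2 h)
  have h1 : ∃! r, Corank (j z) r := by
    obtain ⟨p, T, f, k1, -, k3⟩ := Pool.Agent.H462.JL.exists_rep hz
    subst k3
    obtain ⟨r, hr⟩ := Pool.Agent.H462.JL.cor_ex' (fun ρ hρ => (k1 ρ hρ).1) f p hu
    exact ⟨r, (Pool.Agent.H462.JL.corG_iff j hj _ r).2 hr, fun s hs =>
      Pool.Agent.H462.JL.cor_unique ((Pool.Agent.H462.JL.corG_iff j hj _ s).1 hs) hr⟩
  have h2 := fun (r : ℕ) (hr : Corank (j z) r) =>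
    Pool.Agent.H462.JL.oneG (K := K) j hb hu ((Pool.Agent.H462.JL.corG_iff j hj z r).1 hr)
  obtain ⟨r, hr, hun⟩ := h1
  obtain ⟨a1, a2, ⟨Φ, a3, a4, a5⟩, a6⟩ := h2 r hr
  refine ⟨⟨r, hr, hun⟩, ⟨Φ, a3, a4⟩, a1, fun s hs => (h2 s hs).2.1, fun h0 => ?_⟩
  obtain ⟨-, -, ⟨Φ, b3, b4, b5⟩, b6⟩ := h2 0 h0
  obtain ⟨c1, c2, c3⟩ := b6 rfl
  have hz : RankZero (curve ((j z : 𝓞 K) : K)) := ⟨c1, Φ, b3, fun s hs => (b4 s hs).2, b5 rfl⟩
  exact ⟨hz, hz.equality, c2, c3⟩

end

/-- **Main theorem.** -/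
theorem result (K : Type) [Field K] [NumberField K] [IsCyclotomicExtension {3} ℚ K] (m : ℕ)
    (A : Fin m → 𝓞 K) (hA : ∀ i, CubeFreePrimeToThree (A i))
    (hne : ∀ i j, i ≠ j → ∀ u : K, (A i : K) ≠ u ^ 3 * A j) :
    -- (1) the number of the `D` and the share of the class
    (∀ X, (all A X).Finite) ∧
    (∃ c : ℝ, 0 < c ∧ ∃ X₀ : ℕ, ∀ X : ℕ, X₀ ≤ X → c * X ≤ ((all A X).ncard : ℝ)) ∧
    classes A ≤ m ∧ classes A ≤ 9 ∧
    Filter.Tendsto (fun X : ℕ => ((upTo A X).ncard : ℝ) / ((all A X).ncard : ℝ)) Filter.atTop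
      (nhds ((9 - classes A) / 9)) ∧
    -- (2) each of the curves `E_B`, `B` cube-free, prime to `3`, not a unit and not excluded
    (∀ D : 𝓞 K, Admissible A D → InClass A D → ∀ i, Good (A i * D)) ∧
    (∀ B : 𝓞 K, Good B → (∃! r, Corank B r) ∧
      EntireLSeries (curve (B : K)) ∧
      Module.Finite ℤ (curve (B : K)).toAffine.Point ∧
      (∀ r, Corank B r → rank (curve (B : K)) ≤ 2 * r) ∧
      (Corank B 0 → RankZero (curve (B : K)) ∧ RankEquality (curve (B : K)) ∧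
        ThreeParts (curve (B : K)))) ∧
    -- (3) the joint distribution of the coranks in the class and in each of the residue classes
    (classes A < 9 → ∀ r : Fin m → ℕ, Filter.Tendsto (fun X : ℕ =>
      (({D ∈ upTo A X | ∀ i, Corank (A i * D) (r i)}.ncard : ℕ) : ℝ) / ((upTo A X).ncard : ℝ))
      Filter.atTop (nhds (∏ i, p (r i)))) ∧
    (∀ (u : (𝓞 K)ˣ) (t : ℤ),
      Filter.Tendsto (fun X : ℕ => ((residue A u t X).ncard : ℝ) / ((all A X).ncard : ℝ))
        Filter.atTop (nhds (1 / 18)) ∧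
      ∀ r : Fin m → ℕ, Filter.Tendsto (fun X : ℕ =>
        (({D ∈ residue A u t X | ∀ i, Corank (A i * D) (r i)}.ncard : ℕ) : ℝ) /
          ((residue A u t X).ncard : ℝ)) Filter.atTop (nhds (∏ i, p (r i)))) ∧
    (0.639 < p 0 ∧ p 0 < 0.6391 ∧ HasSum p 1) ∧
    (∀ r : ℕ, 1 - 1.5 / 3 ^ ((r + 1) * (r + 2) / 2) ≤ ∑ s ∈ Finset.range (r + 1), p s) ∧
    -- (4) Q1 for all the `m` curves, for a positive share of all the `D`
    (∀ ε : ℝ, 0 < ε → ∃ X₀ : ℕ, ∀ X : ℕ, X₀ ≤ X →
      ((9 - classes A) / 9 * p 0 ^ m - ε) * ((all A X).ncard : ℝ) ≤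
        ((solved A (all A X)).ncard : ℝ)) ∧
    (m = 1 → ∃ X₀ : ℕ, ∀ X : ℕ, X₀ ≤ X →
      0.568 * ((all A X).ncard : ℝ) ≤ ((solved A (all A X)).ncard : ℝ)) ∧
    -- (5) small ranks
    (classes A < 9 → ∀ (r : Fin m → ℕ) (ε : ℝ), 0 < ε → ∃ X₀ : ℕ, ∀ X : ℕ, X₀ ≤ X →
      (∏ i, ∑ s ∈ Finset.range (r i + 1), p s - ε) * ((upTo A X).ncard : ℝ) ≤
        ((rankLe A X fun i => 2 * r i).ncard : ℝ)) ∧
    -- (6) ALL the cubic twists: the same laws for all the cube-free `D`
    (0 < m → (∀ X, (allCubeFree A X).Finite ∧ all A X ⊆ allCubeFree A X) ∧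
      Filter.Tendsto (fun X : ℕ => (({D ∈ allCubeFree A X | ∀ i, Good (A i * D)}.ncard : ℕ) : ℝ) /
        ((allCubeFree A X).ncard : ℝ)) Filter.atTop (nhds ((9 - classes A) / 9)) ∧
      (∀ r : Fin m → ℕ, Filter.Tendsto (fun X : ℕ =>
        (({D ∈ allCubeFree A X | ∀ i, Good (A i * D) ∧ Corank (A i * D) (r i)}.ncard : ℕ) : ℝ) /
          ((allCubeFree A X).ncard : ℝ)) Filter.atTop
        (nhds ((9 - classes A) / 9 * ∏ i, p (r i)))) ∧
      (∀ ε : ℝ, 0 < ε → ∃ X₀ : ℕ, ∀ X : ℕ, X₀ ≤ X →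
        ((9 - classes A) / 9 * p 0 ^ m - ε) * ((allCubeFree A X).ncard : ℝ) ≤
          ((solved A (allCubeFree A X)).ncard : ℝ)) ∧
      (m = 1 → ∃ X₀ : ℕ, ∀ X : ℕ, X₀ ≤ X →
        0.568 * ((allCubeFree A X).ncard : ℝ) ≤ ((solved A (allCubeFree A X)).ncard : ℝ))) := by
  have hNe : Pool.Agent.H462.JL.NeK A (fun _ => false) := by
    intro i j hij u
    rw [if_pos rfl]
    exact hne i j hij u
  obtain ⟨h1, h2, h3, h4, h5, h6, -⟩ := Pool.Agent.H462.JL.finalJ K A (fun _ => false) hA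
  have hfin : ∀ X, (all A X).Finite := h1
  have hfin' : ∀ X, (upTo A X).Finite := fun X => (hfin X).subset fun D hD => ⟨hD.1, hD.2.1⟩
  obtain ⟨-, -, -, hp, -⟩ := Pool.Agent.XL6.finalXL K
  have hp' : 0.639 < p 0 ∧ p 0 < 0.6391 ∧ HasSum p 1 := hp
  have hcl : classes A ≤ m := by
    unfold classes
    rw [← Set.image_univ]
    refine (Set.ncard_image_le (Set.toFinite _)).trans ?_
    rw [Set.ncard_univ, Nat.card_eq_fintype_card, Fintype.card_fin]
  have hlaw : classes A < 9 → ∀ r : Fin m → ℕ, Filter.Tendsto (fun X : ℕ =>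
      (({D ∈ upTo A X | ∀ i, Corank (A i * D) (r i)}.ncard : ℕ) : ℝ) / ((upTo A X).ncard : ℝ))
      Filter.atTop (nhds (∏ i, p (r i))) := fun h9 r => h5 hNe h9 r
  have key : ∀ ε : ℝ, 0 < ε → ∃ X₀ : ℕ, ∀ X : ℕ, X₀ ≤ X →
      ((9 - classes A) / 9 * p 0 ^ m - ε) * ((all A X).ncard : ℝ) ≤
        ((solved A (all A X)).ncard : ℝ) := by
    intro ε hε
    have h7 : Filter.Tendsto (fun X : ℕ =>
        (({D ∈ upTo A X | ∀ i, Corank (A i * D) 0}.ncard : ℕ) : ℝ) / ((all A X).ncard : ℝ))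
        Filter.atTop (nhds ((9 - classes A) / 9 * ∏ i : Fin m, p 0)) := h6 hNe fun _ => 0
    rw [Finset.prod_const, Finset.card_univ, Fintype.card_fin] at h7
    obtain ⟨X₀, k⟩ := eventually_share h7 ε hε
    refine ⟨X₀, fun X hX => (k X hX).trans ?_⟩
    norm_cast
    refine Set.ncard_le_ncard ?_ ((hfin X).subset fun D hD => hD.1)
    rintro D ⟨m1, m2⟩
    exact ⟨⟨m1.1, m1.2.1⟩, fun i => (each (good_of hA m1.2.1 m1.2.2 i)).2.2.2.2 (m2 i)⟩
  have hone : m = 1 → (8 : ℝ) / 9 * p 0 ≤ (9 - classes A) / 9 * p 0 ^ m := by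
    intro hm
    have hpw : p 0 ^ m = p 0 := by rw [hm, pow_one]
    have h9 : (classes A : ℝ) ≤ 1 := by
      have h11 : (classes A : ℝ) ≤ m := by exact_mod_cast hcl
      have h12 : (m : ℝ) = 1 := by exact_mod_cast hm
      linarith
    rw [hpw]
    have h10 : (8 : ℝ) / 9 ≤ (9 - classes A) / 9 := by linarith
    exact mul_le_mul_of_nonneg_right h10 (by linarith [hp'.1])
  refine ⟨hfin, h2, hcl, h3, h4, fun D hD hC i => good_of hA hD hC i, fun B hB => each hB, hlaw,
    fun u t => ?_, hp', fun r => ?_, key, fun hm => ?_, fun h9 r ε hε => ?_, fun hm0 => ?_⟩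
  · obtain ⟨h7, h8⟩ := Pool.Agent.H462.JL.resJ K A (fun _ => false) hA u t
    refine ⟨h7, fun r => (h8 hNe r).congr fun X => ?_⟩
    congr 2
    congr 1
    ext D
    exact ⟨fun h => ⟨⟨h.1, h.2.1⟩, h.2.2⟩, fun h => ⟨h.1.1, h.1.2, h.2⟩⟩
  · have h7 : 1 - ∑ s ∈ Finset.range (r + 1), p s ≤ 1.5 / 3 ^ ((r + 1) * (r + 2) / 2) :=
      Pool.Agent.XL6.tail_le r
    linarith
  · have h8 := hone hm
    obtain ⟨X₀, k⟩ := key ((9 - classes A) / 9 * p 0 ^ m - 0.568) (by linarith [hp'.1])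
    refine ⟨X₀, fun X hX => ?_⟩
    have h7 := k X hX
    rwa [sub_sub_cancel] at h7
  · -- the disjoint union over the coranks
    obtain ⟨S, hS⟩ : ∃ S : Finset (Fin m → ℕ),
        S = Fintype.piFinset fun i => Finset.range (r i + 1) := ⟨_, rfl⟩
    have hlim : Filter.Tendsto (fun X : ℕ =>
        (({D ∈ upTo A X | ∀ i, ∃ s ≤ r i, Corank (A i * D) s}.ncard : ℕ) : ℝ) /
          ((upTo A X).ncard : ℝ)) Filter.atTop (nhds (∏ i, ∑ s ∈ Finset.range (r i + 1), p s)) := by
      have h7 := tendsto_finsetSum S fun s _ => hlaw h9 s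
      rw [Finset.prod_univ_sum, ← hS]
      refine h7.congr fun X => ?_
      rw [← Finset.sum_div]
      congr 1
      have e : {D ∈ upTo A X | ∀ i, ∃ s ≤ r i, Corank (A i * D) s} =
          ⋃ s ∈ S, {D ∈ upTo A X | ∀ i, Corank (A i * D) (s i)} := by
        ext D
        simp only [Set.mem_iUnion, exists_prop]
        constructor
        · rintro ⟨h10, h11⟩
          choose s hs1 hs2 using h11
          refine ⟨s, ?_, h10, hs2⟩
          rw [hS, Fintype.mem_piFinset]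
          intro i
          rw [Finset.mem_range]
          have := hs1 i
          omega
        · rintro ⟨s, hs, h10, h11⟩
          rw [hS, Fintype.mem_piFinset] at hs
          refine ⟨h10, fun i => ⟨s i, ?_, h11 i⟩⟩
          have := hs i
          rw [Finset.mem_range] at this
          omega
      rw [e, ncard_biUnion S _ (fun s => (hfin' X).subset fun D hD => hD.1)]
      · push_cast
        rfl
      · intro s t hst
        rw [Set.disjoint_left]
        rintro D ⟨h10, h11⟩ ⟨-, h12⟩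
        apply hst
        funext i
        exact (each (good_of hA h10.2.1 h10.2.2 i)).1.unique (h11 i) (h12 i)
    obtain ⟨X₀, k⟩ := eventually_share hlim ε hε
    refine ⟨X₀, fun X hX => (k X hX).trans ?_⟩
    norm_cast
    refine Set.ncard_le_ncard ?_ ((hfin' X).subset fun D hD => hD.1)
    rintro D ⟨m1, m2⟩
    refine ⟨m1, fun i => ?_⟩
    obtain ⟨s, hs1, hs2⟩ := m2 i
    have h10 := each (good_of hA m1.2.1 m1.2.2 i)
    exact ⟨h10.2.2.1, (h10.2.2.2.1 s hs2).trans (Nat.mul_le_mul_left 2 hs1)⟩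
  · -- all the cube-free elements
    have hNonempty : Nonempty (Fin m) := ⟨⟨0, hm0⟩⟩
    obtain ⟨k1, -, k3, k4⟩ := Pool.Agent.H428.AX.final_law (A := A) hA
    have hfinC : ∀ X, (allCubeFree A X).Finite := k1
    have hgd : ∀ X, ∀ D ∈ allCubeFree A X, ∀ i,
        (Good (A i * D) ↔ Pool.Agent.H428.AX.Gd (A i * D)) := fun X D hD i =>
      ⟨fun h => h.2, fun h => ⟨mul_good (hA i) hD.2.1 (hD.2.2 i), h⟩⟩
    have hlawC : ∀ r : Fin m → ℕ, Filter.Tendsto (fun X : ℕ =>
        (({D ∈ allCubeFree A X | ∀ i, Good (A i * D) ∧ Corank (A i * D) (r i)}.ncard : ℕ) : ℝ) /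
          ((allCubeFree A X).ncard : ℝ)) Filter.atTop
        (nhds ((9 - classes A) / 9 * ∏ i, p (r i))) := by
      intro r
      refine (k4 hNe r).congr fun X => ?_
      have e : {D ∈ Pool.Agent.H428.AX.upF A X | (∀ i, Pool.Agent.H428.AX.Gd (A i * D)) ∧
          ∀ i, Pool.Agent.H462.JL.CorKG (A i * D) (r i)} =
          {D ∈ allCubeFree A X | ∀ i, Good (A i * D) ∧ Corank (A i * D) (r i)} := by
        ext D
        refine and_congr_right fun hD => ?_
        rw [forall_and]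
        exact and_congr_left fun _ => forall_congr' fun i => (hgd X D hD i).symm
      rw [e]
      rfl
    have keyC : ∀ ε : ℝ, 0 < ε → ∃ X₀ : ℕ, ∀ X : ℕ, X₀ ≤ X →
        ((9 - classes A) / 9 * p 0 ^ m - ε) * ((allCubeFree A X).ncard : ℝ) ≤
          ((solved A (allCubeFree A X)).ncard : ℝ) := by
      intro ε hε
      have h7 := hlawC fun _ => 0
      rw [Finset.prod_const, Finset.card_univ, Fintype.card_fin] at h7
      obtain ⟨X₀, k⟩ := eventually_share h7 ε hε
      refine ⟨X₀, fun X hX => (k X hX).trans ?_⟩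
      norm_cast
      refine Set.ncard_le_ncard ?_ ((hfinC X).subset fun D hD => hD.1)
      rintro D ⟨m1, m2⟩
      exact ⟨m1, fun i => (each (m2 i).1).2.2.2.2 (m2 i).2⟩
    refine ⟨fun X => ⟨hfinC X, fun D hD => ⟨hD.1, Admissible.cubeFree hD.2, hD.2.2⟩⟩, ?_, hlawC,
      keyC, fun hm => ?_⟩
    · refine k3.congr fun X => ?_
      have e : {D ∈ Pool.Agent.H428.AX.upF A X | ∀ i, Pool.Agent.H428.AX.Gd (A i * D)} =
          {D ∈ allCubeFree A X | ∀ i, Good (A i * D)} := by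
        ext D
        exact and_congr_right fun hD => forall_congr' fun i => (hgd X D hD i).symm
      rw [e]
      rfl
    · have h8 := hone hm
      obtain ⟨X₀, k⟩ := keyC ((9 - classes A) / 9 * p 0 ^ m - 0.568) (by linarith [hp'.1])
      refine ⟨X₀, fun X hX => ?_⟩
      have h7 := k X hX
      rwa [sub_sub_cancel] at h7

end Pool.Agent.Results.MP_cd906c_nt.CubicTwistsAllClasses
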