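import Pool.Agent.H503.TA.Tower

/-!
# No exceptions in Rohrlich's theorem at prime power level

Let `ℓ` be a prime and `f ≠ 0` a cusp form of weight two on `Γ₀(ℓ^A)` with real Fourier coefficients
`c(n)`, and `c(n) = 0` for `ℓ ∣ n`; for example any newform of level `ℓ^A`, `A ≥ 2`, with trivial
character.

* For every `m ≥ A`, `m ≥ 2`, there are an even and an odd primitive character `χ` modulo `ℓ^m` with
  `L(f, χ, 1) ≠ 0`.
* Let `ℓ = 2` or `ℓ = 3`, and suppose that the periods of `f` lie in a plane `K ω₁ + K ω₂` over a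
  field `K ⊂ ℝ` over which the cyclotomic polynomials `Φ_{ℓ^j}` are irreducible.  (Elliptic curves
  `E/ℚ` with good reduction outside `ℓ`: `K = ℚ`.)  Then `L(f, χ, 1) ≠ 0` for **all** primitive `χ` of
  conductor `ℓ^m`, `m ≥ A`, and the order of vanishing at `s = 1` of the `L`-function of `f` over
  `ℚ(ζ_{ℓ^n})` is the same for all `n ≥ A - 1`.

The proof: the periods `p(a) = 2πi ∫_{i∞}^{a/ℓ^m} f` are the periods of the elements of `Γ₀(ℓ^m)` with
lower left entry `ℓ^m`, and these generate `Γ₀(ℓ^m)` together with `T` and `-1`.  If all twisted values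
of one parity vanish then by orthogonality the real (or imaginary) part of `2πi ∫ f` is invariant under
`Γ₀(ℓ^m)`, hence under `Γ₀(ℓ^A)`, and the maximum principle gives `f = 0`.
-/

set_option autoImplicit false

open Complex UpperHalfPlane MatrixGroups CongruenceSubgroup

namespace Pool.Agent.Results.MP_cd906c_nt.CyclotomicTowerNonvanishing

/-- The `n`-th Fourier coefficient of `f`. -/
noncomputable def coef {N : ℕ} (f : CuspForm (Gamma0 N : Subgroup (GL (Fin 2) ℝ)) 2) (n : ℕ) : ℂ :=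
  (qExpansion 1 f).coeff n

/-- The primitive `∑ c(n)/n e^(2πinz) = 2πi ∫_{i∞}^z f(w) dw` of `2πi f(z) dz`. -/
noncomputable def prim {N : ℕ} (f : CuspForm (Gamma0 N : Subgroup (GL (Fin 2) ℝ)) 2) (z : ℂ) : ℂ :=
  ∑' n : ℕ, coef f n / n * Complex.exp (2 * Real.pi * Complex.I * n * z)

/-- The periods `2πi ∫_z^{γz} f(w) dw`, `γ ∈ Γ₀(N)`, lie in `K ω₁ + K ω₂` for two complex numbers
`ω₁, ω₂` which are linearly independent over `ℝ`. -/
def PeriodsIn {N : ℕ} (f : CuspForm (Gamma0 N : Subgroup (GL (Fin 2) ℝ)) 2) (K : Type) [Field K]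
    [Algebra K ℝ] : Prop :=
  ∃ ω₁ ω₂ : ℂ, (ω₁ * (starRingEnd ℂ) ω₂).im ≠ 0 ∧
    ∀ γ : SL(2, ℤ), γ ∈ Gamma0 N → ∃ x y : K, ∀ z : ℍ, prim f ((γ • z : ℍ) : ℂ) =
      prim f (z : ℂ) + ((algebraMap K ℝ x : ℝ) * ω₁ + (algebraMap K ℝ y : ℝ) * ω₂)

/-- `L(f, χ, s)`, that is `∑ χ(n) c(n) n^(-s)`, continues to an entire function of `s` which does not
vanish at `s = 1`. -/
def NonvanishingAtOne {M : ℕ} (c : ℕ → ℂ) (χ : DirichletCharacter ℂ M) : Prop :=
  ∃ L : ℂ → ℂ, Differentiable ℂ L ∧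
    (∀ s : ℂ, 2 < s.re → L s = LSeries (fun n => χ n * c n) s) ∧ L 1 ≠ 0

/-- `L (ℓ^j) χ` is the entire function `L(f, χ, s)` for all primitive characters `χ` modulo `ℓ^j`,
`j ≥ 0`. -/
def IsTwist (ℓ : ℕ) (c : ℕ → ℂ) (L : (M : ℕ) → DirichletCharacter ℂ M → ℂ → ℂ) : Prop :=
  ∀ (j : ℕ) (χ : DirichletCharacter ℂ (ℓ ^ j)), χ.IsPrimitive → Differentiable ℂ (L (ℓ ^ j) χ) ∧
    ∀ s : ℂ, 2 < s.re → L (ℓ ^ j) χ s = LSeries (fun n => χ n * c n) s

/-- The product of the functions `L(f, χ, s)` over all primitive characters `χ` modulo `ℓ^j`,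
`j ≤ n`.  This is the `L`-function of `f` over `ℚ(ζ_{ℓ^n})`, without Euler factors at `ℓ`. -/
noncomputable def towerL (ℓ : ℕ) (L : (M : ℕ) → DirichletCharacter ℂ M → ℂ → ℂ) (n : ℕ) (s : ℂ) : ℂ :=
  ∏ j ∈ Finset.range (n + 1), ∏ᶠ χ ∈ {χ : DirichletCharacter ℂ (ℓ ^ j) | χ.IsPrimitive}, L (ℓ ^ j) χ s

/-- For every `ℓ`: at every layer `m ≥ A` there are nonvanishing twists of both parities. -/
def SomeTwist : Prop :=
  ∀ (ℓ A : ℕ) (f : CuspForm (Gamma0 (ℓ ^ A) : Subgroup (GL (Fin 2) ℝ)) 2), ℓ.Prime → f ≠ 0 →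
    (∀ n, (coef f n).im = 0) → (∀ n, ℓ ∣ n → coef f n = 0) →
    ∀ m : ℕ, A ≤ m → 2 ≤ m → ∀ s : ℂ, s = 1 ∨ s = -1 →
      ∃ χ : DirichletCharacter ℂ (ℓ ^ m), χ.IsPrimitive ∧ χ (-1) = s ∧ NonvanishingAtOne (coef f) χ

/-- For `ℓ = 2, 3`: at every layer `m ≥ A` all twists are nonvanishing, and the order of vanishing over
`ℚ(ζ_{ℓ^n})` does not depend on `n ≥ A - 1`. -/
def AllTwists : Prop :=
  ∀ (ℓ A : ℕ) (f : CuspForm (Gamma0 (ℓ ^ A) : Subgroup (GL (Fin 2) ℝ)) 2) (K : Type) [Field K]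
    [Algebra K ℝ], ℓ = 2 ∨ ℓ = 3 → 3 ≤ A → f ≠ 0 → (∀ n, (coef f n).im = 0) →
    (∀ n, ℓ ∣ n → coef f n = 0) → PeriodsIn f K →
    (∀ j : ℕ, Irreducible (Polynomial.cyclotomic (ℓ ^ j) K)) →
    (∀ m : ℕ, A ≤ m → ∀ χ : DirichletCharacter ℂ (ℓ ^ m), χ.IsPrimitive →
      NonvanishingAtOne (coef f) χ) ∧
    ∀ L : (M : ℕ) → DirichletCharacter ℂ M → ℂ → ℂ, IsTwist ℓ (coef f) L →
      ∀ n : ℕ, A - 1 ≤ n →
        analyticOrderAt (towerL ℓ L n) 1 = analyticOrderAt (towerL ℓ L (A - 1)) 1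

theorem result : SomeTwist ∧ AllTwists := by
  refine ⟨fun ℓ A f hp hf hreal hc m hm hm2 s hs =>
    H503.TA.one_primitive hp f hf hreal hc hm hm2 hs, ?_⟩
  intro ℓ A f K _ _ hℓ hA hf hreal hc hper hirr
  have hall : ∀ m : ℕ, A ≤ m → ∀ χ : DirichletCharacter ℂ (ℓ ^ m), χ.IsPrimitive →
      NonvanishingAtOne (coef f) χ := fun m hm χ hχ =>
    H503.TA.all_primitive hℓ hA f hf hreal hc K hper hirr hm χ hχ
  refine ⟨hall, fun L hL n hn => ?_⟩
  have hp : ℓ.Prime := by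
    rcases hℓ with rfl | rfl
    · exact Nat.prime_two
    · exact Nat.prime_three
  have hfin : ∀ j, {χ : DirichletCharacter ℂ (ℓ ^ j) | χ.IsPrimitive}.Finite := by
    intro j
    have : NeZero (ℓ ^ j) := ⟨pow_ne_zero _ hp.ne_zero⟩
    exact Set.toFinite _
  have hdiff : ∀ j, Differentiable ℂ (fun s => ∏ᶠ χ ∈ {χ : DirichletCharacter ℂ (ℓ ^ j) |
      χ.IsPrimitive}, L (ℓ ^ j) χ s) := by
    intro j
    have h1 : (fun s => ∏ᶠ χ ∈ {χ : DirichletCharacter ℂ (ℓ ^ j) | χ.IsPrimitive}, L (ℓ ^ j) χ s) =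
        fun s => ∏ χ ∈ (hfin j).toFinset, L (ℓ ^ j) χ s := by
      funext s
      exact finprod_mem_eq_finite_toFinset_prod _ (hfin j)
    rw [h1]
    refine Differentiable.fun_finsetProd fun χ hχ => ?_
    exact (hL j χ (by simpa using hχ)).1
  induction n, hn using Nat.le_induction with
  | base => rfl
  | succ n hn ih =>
    rw [← ih]
    have h2 : towerL ℓ L (n + 1) = fun s => towerL ℓ L n s *
        ∏ᶠ χ ∈ {χ : DirichletCharacter ℂ (ℓ ^ (n + 1)) | χ.IsPrimitive}, L (ℓ ^ (n + 1)) χ s := by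
      funext s
      unfold towerL
      rw [Finset.prod_range_succ]
    rw [h2]
    refine H503.TA.order_mul ?_ (hdiff (n + 1)) ?_
    · unfold towerL
      exact Differentiable.fun_finsetProd fun j _ => hdiff j
    · rw [finprod_mem_eq_finite_toFinset_prod _ (hfin (n + 1)), Finset.prod_ne_zero_iff]
      intro χ hχ
      have hχ' : χ.IsPrimitive := by simpa using hχ
      obtain ⟨L', h3, h4, h5⟩ := hall (n + 1) (by omega) χ hχ'
      have h6 := hL (n + 1) χ hχ'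
      rw [H503.TA.unique_cont h6.1 h3 h6.2 h4]
      exact h5

end Pool.Agent.Results.MP_cd906c_nt.CyclotomicTowerNonvanishing
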