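import Pool.Agent.H462.R2.J

/-!
# The rank conjecture for all the intermediate fields of Galois extensions with prescribed group

Let `Γ` be ANY finite group with a normal 2-subgroup of index one or three: any finite 2-group (of any
nilpotency class and derived length), `A₄`, `SL₂(𝔽₃)`, the wreath products `P ≀ C₃` of 2-groups, …  Let `B`
be any bound.  Then there are number fields `k₀ ⊆ K`, where `K` is Galois over `ℚ`, with
`Gal(K/k₀) ≅ Γ` and `K/ℚ` unramified at all the prime numbers `p ≤ B` different from three, such that the
equality `ord_{s=1} L(E/k, s) = rk E(k)` of Q1 holds, with analytic continuation and with both sides equal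
to zero, for EVERY field `k` contained in `K` (it need not contain `k₀`, nor be normal over anything) and
EVERY elliptic curve `E` over `k` which becomes isomorphic to `y² + y = x³` over some field `k'`
with `k ⊆ k' ⊆ K` whose degree over `k` is a power of two: for the curve `y² + y = x³` itself
(`k' = k`), and for its quadratic twists by all the elements of `k` which are squares in `K`.

The proof.  An earlier result of this pool (library, `K7.H70.TW`) establishes the last assertion for a
given Galois extension `K` of `M = ℚ(ζ₉)` whose degree is a power of two and in which no prime of `M`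
ramifies modulo which `2` is a cube, except above three.  This is a strong condition: it has to be met at
all the steps of a tower, and nothing was known about the Galois groups which occur.  We prove that all the
groups `Γ` above occur.  Let `K` be one such field, Galois over `ℚ`.

* `2` is not a cube in `K`; by the theorem of Chebotarev for the field `K(∛2)` there are infinitely many
  prime numbers which split completely in `K` and modulo whose prime divisors `2` is not a cube (`R2/B`).
* By the pigeonhole principle for the ideal class group and for the residues modulo four there are,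
  for every `r`, elements `b₁, …, b_r` of `𝓞 K`, all congruent modulo four to the same square, divisible
  only by such primes, such that the conjugates `g b_j` are independent modulo squares (`R2/D`).
* The field `L` generated over `K` by the square roots of all the `g b_j`, `g ∈ Gal(K/ℚ)`, is again of
  the same kind, and `Gal(L/ℚ)` is the full regular wreath product of `(ℤ/2)^r` with `Gal(K/ℚ)`
  (`R2/E`, `R2/F`, `R2/G`).
* By the theorem of Kaloujnine and Krasner, an extension of a subgroup of `Gal(K/ℚ)` by an elementary
  abelian 2-group is a subgroup of this wreath product (`R2/H`); every `Γ` is obtained in finitely many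
  such steps from a subgroup of `Gal(ℚ(ζ₉)/ℚ)`.
-/

set_option autoImplicit false

open NumberField IsDedekindDomain
open scoped Classical

namespace Pool.Agent.Results.MP_cd906c_nt.PrescribedGaloisGroup

/-- `K/ℚ` is unramified at the prime number `p`: the inertia group of every prime `w` above `p` is
trivial -/
def UnramifiedAt (K : Type) [Field K] [NumberField K] (p : ℕ) : Prop :=
  ∀ w : HeightOneSpectrum (𝓞 K), (p : 𝓞 K) ∈ w.asIdeal →
    ∀ σ : Gal(K/ℚ), (∀ x : 𝓞 K, σ • x - x ∈ w.asIdeal) → σ = 1

/-- the curve `E` over `k` becomes isomorphic over `k'` to the curve `y² + y = x³` -/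
def SplitBy (k k' : Type) [Field k] [Field k'] [Algebra k k'] (E : WeierstrassCurve k) : Prop :=
  ∃ C : WeierstrassCurve.VariableChange k', C • E.map (algebraMap k k') = ⟨0, 0, 1, 0, 0⟩

/-- `E(k)` is finite, and `L(E/k, s)` continues analytically from the half plane `Re s > 3/2` to a
connected open set containing `1`, where its value is not zero -/
def RankZero {k : Type} [Field k] [NumberField k] (E : WeierstrassCurve k) : Prop :=
  Finite E.toAffine.Point ∧
  ∃ (U : Set ℂ) (Φ : ℂ → ℂ), IsOpen U ∧ IsConnected U ∧ {s : ℂ | (3 / 2 : ℝ) < s.re} ⊆ U ∧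
    (1 : ℂ) ∈ U ∧ AnalyticOnNhd ℂ Φ U ∧ (∀ s : ℂ, (3 / 2 : ℝ) < s.re → Φ s = E.LSeries s) ∧ Φ 1 ≠ 0

/-- the assertion of Q1 for `E/k`: if `Φ` is a continuation of `L(E/k, s)` to the whole plane, then the
order of vanishing of `Φ` at `1` is the rank of `E(k)` -/
def RankEquality {k : Type} [Field k] [NumberField k] (E : WeierstrassCurve k) : Prop :=
  ∀ Φ : ℂ → ℂ, Differentiable ℂ Φ → (∀ s : ℂ, (3 / 2 : ℝ) < s.re → Φ s = E.LSeries s) →
    analyticOrderAt Φ 1 = (Module.finrank ℤ E.toAffine.Point : ℕ∞)

lemma rank_eq_zero {A : Type} [AddCommGroup A] [Finite A] : Module.finrank ℤ A = 0 := by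
  rw [Module.finrank_eq_zero_iff_isTorsion]
  intro x
  refine ⟨⟨(addOrderOf x : ℤ), ?_⟩, ?_⟩
  · rw [mem_nonZeroDivisors_iff_ne_zero]
    exact_mod_cast (addOrderOf_pos x).ne'
  · show ((addOrderOf x : ℕ) : ℤ) • x = 0
    rw [natCast_zsmul, addOrderOf_nsmul_eq_zero]

lemma RankZero.equality {k : Type} [Field k] [NumberField k] {E : WeierstrassCurve k}
    (h : RankZero E) : RankEquality E := by
  obtain ⟨hfin, U, Φ, hU, hUc, hH, h1, hΦ, hL, hne⟩ := h
  intro Ψ hΨ hΨL
  have hΨa : AnalyticOnNhd ℂ Ψ U := fun s _ => hΨ.analyticAt s
  have h2 : (2 : ℂ) ∈ {s : ℂ | (3 / 2 : ℝ) < s.re} := by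
    show (3 / 2 : ℝ) < (2 : ℂ).re
    norm_num
  have hopen : IsOpen {s : ℂ | (3 / 2 : ℝ) < s.re} := isOpen_lt continuous_const Complex.continuous_re
  have heq : Set.EqOn Ψ Φ U := by
    refine hΨa.eqOn_of_preconnected_of_eventuallyEq hΦ hUc.isPreconnected (hH h2) ?_
    filter_upwards [hopen.mem_nhds h2] with s hs
    rw [hΨL s hs, hL s hs]
  have hne' : Ψ 1 ≠ 0 := by rw [heq h1]; exact hne
  rw [rank_eq_zero, (hΨ.analyticAt 1).analyticOrderAt_eq_zero.2 hne']
  rfl

/-- **Main theorem.**  Let `Γ` be a finite group with a normal 2-subgroup of index one or three, and `B` a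
natural number.  There are a number field `K`, Galois over `ℚ` and unramified at the prime numbers
`p ≤ B`, `p ≠ 3`, and a subfield `k₀` with `Gal(K/k₀) ≅ Γ`, such that for all number fields
`k ⊆ k' ⊆ K` with `[k' : k]` a power of two and all elliptic curves `E` over `k` which become isomorphic
over `k'` to `y² + y = x³`: the group `E(k)` is finite, `L(E/k, s)` continues analytically to a connected
open set containing `1` with `L(E/k, 1) ≠ 0`, and the equality of Q1 holds. -/
theorem result : ∀ (Γ : Type) [Group Γ] [Finite Γ] (P : Subgroup Γ) [P.Normal],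
    IsPGroup 2 P → (P.index = 1 ∨ P.index = 3) → ∀ B : ℕ,
    ∃ (K : Type) (_ : Field K) (_ : NumberField K) (k₀ : IntermediateField ℚ K),
      IsGalois ℚ K ∧ Nonempty (Γ ≃* Gal(K/k₀)) ∧
      (∀ p : ℕ, p.Prime → p ≤ B → p ≠ 3 → UnramifiedAt K p) ∧
      ∀ (k' k : Type) [Field k'] [NumberField k'] [Algebra k' K] [Field k] [NumberField k]
        [Algebra k k'], (∃ m : ℕ, Module.finrank k k' = 2 ^ m) →
        ∀ E : WeierstrassCurve k, SplitBy k k' E → RankZero E ∧ RankEquality E := by
  intro Γ _ _ P _ hP hi B
  obtain ⟨K, _, _, k₀, h1, h2, h3, h4⟩ := Pool.Agent.H462.R2.final Γ P hP hi B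
  refine ⟨K, inferInstance, inferInstance, k₀, h1, h2, h3, ?_⟩
  intro k' k _ _ _ _ _ _ ⟨m, hm⟩ E ⟨C, hC⟩
  let _ : Algebra k K := ((algebraMap k' K).comp (algebraMap k k')).toAlgebra
  have hst : IsScalarTower k k' K := IsScalarTower.of_algebraMap_eq' rfl
  obtain ⟨hfin, U, Φ, g1, g2, g3, g4, g5, g6, g7, g8⟩ := h4.form (k := k) (k' := k') hm E C hC
  have h5 : RankZero E := by
    refine ⟨hfin, U, Φ, g1, g2, g3, g4, g5, g6, ?_⟩
    rw [rank_eq_zero, iteratedDeriv_zero] at g8
    exact g8
  exact ⟨h5, h5.equality⟩

end Pool.Agent.Results.MP_cd906c_nt.PrescribedGaloisGroup
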